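import Pool.Agent.K4H43.GC.Main
import Pool.Agent.Y229.MS.Gr

/-!
# Generic compositions
-/

set_option autoImplicit false

namespace Pool.Agent.K4H43.GC

open MvPolynomial Pool.Agent.H628R4.TP
open Pool.Agent.W425.ND (spa)
open Pool.Agent.W426.SM (gord IsRay)
open Pool.Agent.W803.SM (gord_le exists_gord)
open Pool.Agent.W425.SV (NP)
open Pool.Agent.W749.JI (fam)
open Pool.Agent.Y229.RE (ex ex_x ex_y ex_z xv yv zv)
open Pool.Agent.W428.MOT (Pt Constr ratRing Lu MK)
open Pool.Agent.W375.MG (zetaG Good)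
open Pool.Agent.Y229.MS

variable {n κ r : ℕ}

/-- the variables `x, z` among `x, y, z` -/
def emb (n κ : ℕ) : Fin (n + κ) → Fin (n + (κ + κ)) :=
  Fin.addCases (Fin.castAdd (κ + κ)) fun i => Fin.natAdd n (Fin.natAdd κ i)

theorem emb_x (i : Fin n) : emb n κ (Fin.castAdd κ i) = xv κ i := Fin.addCases_left _

theorem emb_z (i : Fin κ) : emb n κ (Fin.natAdd n i) = zv n i := Fin.addCases_right _

theorem emb_inj : Function.Injective (emb n κ) := by
  intro a b
  refine Fin.addCases (fun a => ?_) (fun a => ?_) a <;>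
    refine Fin.addCases (fun b => ?_) (fun b => ?_) b
  · rw [emb_x, emb_x]
    intro h
    have := congrArg Fin.val h
    simp only [xv, Fin.val_castAdd] at this
    rw [Fin.ext this]
  · rw [emb_x, emb_z]
    intro h
    have := congrArg Fin.val h
    have h2 := a.2
    simp only [xv, zv, Fin.val_castAdd, Fin.val_natAdd] at this
    omega
  · rw [emb_x, emb_z]
    intro h
    have := congrArg Fin.val h
    have h2 := b.2
    simp only [xv, zv, Fin.val_castAdd, Fin.val_natAdd] at this
    omega
  · rw [emb_z, emb_z]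
    intro h
    have := congrArg Fin.val h
    simp only [zv, Fin.val_natAdd] at this
    rw [Fin.ext (by omega : (a : ℕ) = b)]

theorem emb_ne_y (v : Fin (n + κ)) (i : Fin κ) : emb n κ v ≠ yv n i := by
  refine Fin.addCases (fun a => ?_) (fun a => ?_) v
  · rw [emb_x]
    intro h
    have := congrArg Fin.val h
    have h2 := a.2
    simp only [xv, yv, Fin.val_castAdd, Fin.val_natAdd] at this
    omega
  · rw [emb_z]
    intro h
    have := congrArg Fin.val h
    have h2 := i.2
    simp only [yv, zv, Fin.val_castAdd, Fin.val_natAdd] at this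
    omega

/-- the exponent of `X ^ w` (`i = 0`) or `y_i X ^ w` -/
def exw (i : Fin (κ + 1)) (w : Fin (n + κ) → ℕ) : Fin (n + (κ + κ)) → ℕ :=
  Fin.append (fun i' => w (Fin.castAdd κ i')) (Fin.append
    (fun i' : Fin κ => if i = i'.succ then 1 else 0) (fun i' => w (Fin.natAdd n i')))

theorem ex_eq (π : Fin r → Fin (κ + 1)) (m : Fin r → Fin (n + κ) → ℕ) (j : Fin r) :
    ex π m j = exw (π j) (m j) := rfl

/-- the fixed part of `G` -/
noncomputable def hG {F : Type} [Field F] (H : Fin (κ + 1) → MvPolynomial (Fin (n + κ)) F) :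
    MvPolynomial (Fin (n + (κ + κ))) F :=
  rename (emb n κ) (H 0) + ∑ i : Fin κ, X (yv n i) * rename (emb n κ) (H i.succ)

/-- the polynomials `Φ` and `l_i` -/
noncomputable def tup {F k : Type} [Field F] [Field k] [Algebra F k] (π : Fin r → Fin (κ + 1))
    (m : Fin r → Fin (n + κ) → ℕ) (a : Fin r → k)
    (H : Fin (κ + 1) → MvPolynomial (Fin (n + κ)) F) (i : Fin (κ + 1)) :
    MvPolynomial (Fin (n + κ)) k :=
  (∑ j ∈ Finset.univ.filter (fun j => π j = i), C (a j) * ∏ v, X v ^ m j v) +
    map (algebraMap F k) (H i)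

theorem exw_md (i : Fin (κ + 1)) (w : Fin (n + κ) →₀ ℕ) (x : Fin (n + (κ + κ))) :
    exw i (fun v => w v) x = (w.mapDomain (emb n κ)) x +
      (if h : ∃ i' : Fin κ, i = i'.succ then Finsupp.single (yv n h.choose) 1 x else 0) := by
  classical
  refine Fin.addCases (fun a => ?_) (fun b => ?_) x
  · have e1 : (w.mapDomain (emb n κ)) (Fin.castAdd (κ + κ) a) = w (Fin.castAdd κ a) := by
      have := Finsupp.mapDomain_apply (emb_inj (n := n) (κ := κ)) w (Fin.castAdd κ a)
      rw [emb_x] at this
      exact this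
    rw [e1]
    unfold exw
    rw [Fin.append_left]
    split_ifs with h
    · rw [Finsupp.single_apply, if_neg, add_zero]
      intro h3
      have := congrArg Fin.val h3
      have h2 := a.2
      simp only [yv, Fin.val_castAdd, Fin.val_natAdd] at this
      omega
    · rw [add_zero]
  · refine Fin.addCases (fun b => ?_) (fun b => ?_) b
    · have e1 : (w.mapDomain (emb n κ)) (Fin.natAdd n (Fin.castAdd κ b)) = 0 := by
        refine Finsupp.mapDomain_of_notMem_range _ _ ?_
        rintro ⟨v, hv⟩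
        exact emb_ne_y v b hv
      rw [e1, zero_add]
      unfold exw
      rw [Fin.append_right, Fin.append_left]
      by_cases h : ∃ i' : Fin κ, i = i'.succ
      · rw [dif_pos h]
        have h4 := h.choose_spec
        rw [Finsupp.single_apply]
        by_cases h5 : i = b.succ
        · rw [if_pos h5, if_pos]
          have h6 : h.choose = b := Fin.succ_injective _ (h4.symm.trans h5)
          rw [h6]
          rfl
        · rw [if_neg h5, if_neg]
          intro h6
          apply h5
          have h7 : h.choose = b := by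
            have := congrArg Fin.val h6
            simp only [yv, Fin.val_castAdd, Fin.val_natAdd] at this
            exact Fin.ext (by omega)
          rw [h4, h7]
      · rw [dif_neg h, if_neg fun h5 => h ⟨b, h5⟩]
    · have e1 : (w.mapDomain (emb n κ)) (Fin.natAdd n (Fin.natAdd κ b)) = w (Fin.natAdd n b) := by
        have := Finsupp.mapDomain_apply (emb_inj (n := n) (κ := κ)) w (Fin.natAdd n b)
        rw [emb_z] at this
        exact this
      rw [e1]
      unfold exw
      rw [Fin.append_right, Fin.append_right]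
      split_ifs with h
      · rw [Finsupp.single_apply, if_neg, add_zero]
        intro h3
        have := congrArg Fin.val h3
        have h2 := h.choose.2
        simp only [yv, Fin.val_castAdd, Fin.val_natAdd] at this
        omega
      · rw [add_zero]

theorem supp_hG {F : Type} [Field F] (H : Fin (κ + 1) → MvPolynomial (Fin (n + κ)) F)
    (w : Fin (n + (κ + κ)) →₀ ℕ) (hw : w ∈ (hG H).support) :
    ∃ i, ∃ w0 ∈ (H i).support, ∀ x, w x = exw i (fun v => w0 v) x := by
  classical
  unfold hG at hw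
  rcases Finset.mem_union.1 (support_add hw) with h1 | h1
  · rw [support_rename_of_injective emb_inj, Finset.mem_image] at h1
    obtain ⟨w0, h2, rfl⟩ := h1
    refine ⟨0, w0, h2, fun x => ?_⟩
    rw [exw_md, dif_neg, add_zero]
    rintro ⟨i', hi'⟩
    exact (Fin.succ_ne_zero i').symm hi'
  · obtain ⟨i, hi, h2⟩ := Finset.mem_biUnion.1 (support_sum h1)
    rw [mul_comm, support_mul_X, Finset.mem_map] at h2
    obtain ⟨w1, h3, rfl⟩ := h2
    rw [support_rename_of_injective emb_inj, Finset.mem_image] at h3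
    obtain ⟨w0, h4, rfl⟩ := h3
    refine ⟨i.succ, w0, h4, fun x => ?_⟩
    have hex : ∃ i' : Fin κ, i.succ = i'.succ := ⟨i, rfl⟩
    rw [exw_md, dif_pos hex]
    have h5 : hex.choose = i := (Fin.succ_injective _ hex.choose_spec).symm
    rw [h5]
    rfl

/-- **The automorphism for compositions.** -/
theorem comp_phi {F k : Type} [Field F] [Field k] [Algebra F k] (π : Fin r → Fin (κ + 1))
    (m : Fin r → Fin (n + κ) → ℕ) (a : Fin r → k)
    (H : Fin (κ + 1) → MvPolynomial (Fin (n + κ)) F)
    (c : Fin κ → k) (hc : ∀ i, c i ≠ 0) (p : Fin κ → MvPolynomial (Fin n) k)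
    (hl : ∀ i : Fin κ, tup π m a H i.succ = C (c i) * X (Fin.natAdd n i) -
      rename (Fin.castAdd κ) (p i)) :
    ∃ φ : MvPolynomial (Fin (n + (κ + κ))) k ≃ₐ[k] MvPolynomial (Fin (n + (κ + κ))) k,
      φ (stabK (aeval (Fin.append X fun i => C (c i)⁻¹ * p i) (tup π m a H 0)) κ) =
        spa (ex π m) a + map (algebraMap F k) (hG H) := by
  obtain ⟨ψ, hψ⟩ := Pool.Agent.Y925.MS.gk k c hc p (tup π m a H 0)
  refine ⟨ψ, ?_⟩
  rw [hψ, spa_ex]
  have e1 : (fun i => Fin.addCases (motive := fun _ => Fin (n + (κ + κ))) (Fin.castAdd (κ + κ))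
      (fun i => Fin.natAdd n (Fin.natAdd κ i)) i : Fin (n + κ) → Fin (n + (κ + κ))) ∘
        Fin.castAdd κ = Fin.castAdd (κ + κ) := by
    funext j
    simp only [Function.comp_apply, Fin.addCases_left]
  have h2 : ∀ i : Fin κ, (C (c i) * X (Fin.natAdd n (Fin.natAdd κ i)) -
      rename (Fin.castAdd (κ + κ)) (p i) : MvPolynomial (Fin (n + (κ + κ))) k) =
      rename (emb n κ) (tup π m a H i.succ) := by
    intro i
    rw [hl, map_sub, map_mul, rename_C, rename_X, rename_rename, emb_z]
    unfold zv emb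
    rw [e1]
  rw [Finset.sum_congr rfl fun i _ => congrArg _ (h2 i)]
  unfold hG
  rw [map_add, map_sum]
  have h3 : ∀ i, tup π m a H i = fam π m a i + map (algebraMap F k) (H i) := fun i => rfl
  simp only [map_mul, map_X, map_rename, h3, map_add, mul_add, Finset.sum_add_distrib]
  show rename (emb n κ) _ + _ + (_ + _) = _
  unfold emb yv
  ring

/-- **Negativity.** -/
theorem pos' {k : Type} [Field k]
    (c : Fin κ → k) (hc : ∀ i, c i ≠ 0) (p : Fin κ → MvPolynomial (Fin n) k)
    (Q : Fin (κ + 1) → MvPolynomial (Fin (n + κ)) k)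
    (hl : ∀ i : Fin κ, Q i.succ = C (c i) * X (Fin.natAdd n i) -
      rename (Fin.castAdd κ) (p i))
    (hf : aeval (Fin.append X fun i => C (c i)⁻¹ * p i) (Q 0) ≠
      (0 : MvPolynomial (Fin n) k))
    (u : Fin (n + (κ + κ)) → ℕ) (L : ℕ) (hL : 0 < L)
    (hu : ∀ (i : Fin (κ + 1)) (w : Fin (n + κ) →₀ ℕ), coeff w (Q i) ≠ 0 →
      L ≤ ∑ x, u x * exw i (fun v => w v) x) :
    κ * L < ∑ i, u i := by
  classical
  have hval : ∀ (i : Fin (κ + 1)) (w : Fin (n + κ) →₀ ℕ), ∑ x, u x * exw i (fun v => w v) x =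
      ∑ i' : Fin n, u (xv κ i') * w (Fin.castAdd κ i') +
      (∑ i' : Fin κ, (if i = i'.succ then u (yv n i') else 0) +
        ∑ i' : Fin κ, u (zv n i') * w (Fin.natAdd n i')) := by
    intro i w
    rw [Fin.sum_univ_add, Fin.sum_univ_add]
    unfold exw
    simp only [Fin.append_left, Fin.append_right]
    congr 1
    congr 1
    refine Finset.sum_congr rfl fun i _ => ?_
    split_ifs
    · rw [mul_one]; rfl
    · rw [mul_zero]
  -- `y_i z_i`
  have hyz : ∀ i : Fin κ, L ≤ u (yv n i) + u (zv n i) := by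
    intro i
    have h1 := hu i.succ (Finsupp.single (Fin.natAdd n i) 1) (by
      rw [hl, coeff_sub, coeff_C_mul, coeff_X, if_pos rfl, mul_one,
        coeff_rename_eq_zero _ _ _ ?_, sub_zero]
      · exact hc i
      · intro w hw
        exfalso
        have h1 := DFunLike.congr_fun hw (Fin.natAdd n i)
        rw [Finsupp.single_eq_same, Finsupp.mapDomain_of_notMem_range] at h1
        · exact absurd h1 (by norm_num)
        · rintro ⟨i', hi'⟩
          have := congrArg Fin.val hi'
          simp only [Fin.val_castAdd, Fin.val_natAdd] at this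
          omega)
    rw [hval] at h1
    have h2 : ∑ i' : Fin n, u (xv κ i') * (Finsupp.single (Fin.natAdd n i) 1 :
        Fin (n + κ) →₀ ℕ) (Fin.castAdd κ i') = 0 := by
      refine Finset.sum_eq_zero fun i' _ => ?_
      rw [Finsupp.single_eq_of_ne, mul_zero]
      intro h
      have := congrArg Fin.val h
      simp only [Fin.val_castAdd, Fin.val_natAdd] at this
      omega
    have h3 : ∑ i' : Fin κ, (if i.succ = i'.succ then u (yv n i') else 0) = u (yv n i) := by
      rw [Finset.sum_eq_single i, if_pos rfl]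
      · intro i' _ hi'
        rw [if_neg fun h => hi' (Fin.succ_injective _ h).symm]
      · intro h
        exact absurd (Finset.mem_univ _) h
    have h4 : ∑ i' : Fin κ, u (zv n i') * (Finsupp.single (Fin.natAdd n i) 1 :
        Fin (n + κ) →₀ ℕ) (Fin.natAdd n i') = u (zv n i) := by
      rw [Finset.sum_eq_single i, Finsupp.single_eq_same, mul_one]
      · intro i' _ hi'
        rw [Finsupp.single_eq_of_ne, mul_zero]
        intro h
        apply hi'
        have := congrArg Fin.val h
        simp only [Fin.val_natAdd] at this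
        exact Fin.ext (by omega)
      · intro h
        exact absurd (Finset.mem_univ _) h
    rw [h2, h3, h4] at h1
    omega
  have htot : ∑ i, u i = ∑ i : Fin n, u (xv κ i) + (∑ i : Fin κ, u (yv n i) +
      ∑ i : Fin κ, u (zv n i)) := by
    rw [Fin.sum_univ_add, Fin.sum_univ_add]
    rfl
  have hsum : κ * L ≤ ∑ i : Fin κ, (u (yv n i) + u (zv n i)) := by
    have := Finset.sum_le_sum fun i (_ : i ∈ (Finset.univ : Finset (Fin κ))) => hyz i
    simpa using this
  rw [Finset.sum_add_distrib] at hsum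
  by_contra hcon
  have hx0 : ∑ i : Fin n, u (xv κ i) = 0 := by omega
  have hx : ∀ i, u (xv κ i) = 0 := fun i => Finset.sum_eq_zero_iff.1 hx0 i (Finset.mem_univ i)
  have heq : ∀ i : Fin κ, u (yv n i) + u (zv n i) = L := by
    have h1 : ∑ i : Fin κ, (u (yv n i) + u (zv n i)) = ∑ i : Fin κ, L := by
      rw [Finset.sum_add_distrib, Finset.sum_const, Finset.card_univ, Fintype.card_fin,
        smul_eq_mul]
      omega
    have h2 := (Finset.sum_eq_sum_iff_of_le fun i (_ : i ∈ (Finset.univ : Finset (Fin κ))) =>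
      hyz i).1 h1.symm
    exact fun i => (h2 i (Finset.mem_univ i)).symm
  -- `p_i ≠ 0` gives `u (z_i) = 0`
  have hz : ∀ i : Fin κ, p i ≠ 0 → u (zv n i) = 0 := by
    intro i hp
    obtain ⟨w, hw⟩ := ne_zero_iff.1 hp
    have h1 := hu i.succ (w.mapDomain (Fin.castAdd κ)) (by
      rw [hl, coeff_sub, coeff_C_mul, coeff_X, if_neg, mul_zero, zero_sub,
        coeff_rename_mapDomain _ (Fin.castAdd_injective _ _)]
      · exact neg_ne_zero.2 hw
      · intro h
        have h1 := DFunLike.congr_fun h (Fin.natAdd n i)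
        rw [Finsupp.single_eq_same, Finsupp.mapDomain_of_notMem_range] at h1
        · exact absurd h1 (by norm_num)
        · rintro ⟨i', hi'⟩
          have := congrArg Fin.val hi'
          simp only [Fin.val_castAdd, Fin.val_natAdd] at this
          omega)
    rw [hval] at h1
    have h2 : ∑ i' : Fin n, u (xv κ i') * (w.mapDomain (Fin.castAdd κ)) (Fin.castAdd κ i') = 0 :=
      Finset.sum_eq_zero fun i' _ => by rw [hx, zero_mul]
    have h3 : ∑ i' : Fin κ, (if i.succ = i'.succ then u (yv n i') else 0) = u (yv n i) := by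
      rw [Finset.sum_eq_single i, if_pos rfl]
      · intro i' _ hi'
        rw [if_neg fun h => hi' (Fin.succ_injective _ h).symm]
      · intro h
        exact absurd (Finset.mem_univ _) h
    have h4 : ∑ i' : Fin κ, u (zv n i') *
        (w.mapDomain (Fin.castAdd κ)) (Fin.natAdd n i') = 0 := by
      refine Finset.sum_eq_zero fun i' _ => ?_
      rw [Finsupp.mapDomain_of_notMem_range, mul_zero]
      rintro ⟨i'', hi'⟩
      have := congrArg Fin.val hi'
      simp only [Fin.val_castAdd, Fin.val_natAdd] at this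
      omega
    rw [h2, h3, h4] at h1
    have := heq i
    omega
  -- a monomial of `Φ` without the variables `z_i`, `p_i = 0`
  apply hf
  rw [(Q 0).as_sum, map_sum]
  refine Finset.sum_eq_zero fun w hw => ?_
  have h1 := hu 0 w (mem_support_iff.1 hw)
  rw [hval] at h1
  have h2 : ∑ i' : Fin n, u (xv κ i') * w (Fin.castAdd κ i') = 0 :=
    Finset.sum_eq_zero fun i' _ => by rw [hx, zero_mul]
  have h3 : ∑ i' : Fin κ, (if (0 : Fin (κ + 1)) = i'.succ then u (yv n i') else 0) = 0 :=
    Finset.sum_eq_zero fun i' _ => by rw [if_neg (Fin.succ_ne_zero i').symm]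
  rw [h2, h3, zero_add, zero_add] at h1
  obtain ⟨i, -, hi⟩ := Finset.exists_ne_zero_of_sum_ne_zero
    (show ∑ i' : Fin κ, u (zv n i') * w (Fin.natAdd n i') ≠ 0 by omega)
  have hi1 : u (zv n i) ≠ 0 := left_ne_zero_of_mul hi
  have hi2 : w (Fin.natAdd n i) ≠ 0 := right_ne_zero_of_mul hi
  have hp : p i = 0 := by
    by_contra h
    exact hi1 (hz i h)
  rw [aeval_monomial, Finsupp.prod_fintype _ _ fun i => pow_zero _]
  have h5 : ∏ i, (Fin.append X (fun i => C (c i)⁻¹ * p i) i : MvPolynomial (Fin n) k) ^ w i = 0 := by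
    refine Finset.prod_eq_zero (Finset.mem_univ (Fin.natAdd n i)) ?_
    rw [Fin.append_right, hp, mul_zero, zero_pow hi2]
  rw [h5, mul_zero]

/-- a point of the Newton polyhedron -/
theorem np_le {N : ℕ} (v : Fin r → Fin N → ℕ) (w : Fin N →₀ ℕ) (h : NP v w) (u : Fin N → ℕ)
    (L : ℕ) (hL : ∀ j, L ≤ ∑ i, u i * v j i) : L ≤ ∑ i, u i * w i := by
  obtain ⟨l, h1, h2, h3⟩ := h
  have h4 : (L : ℝ) ≤ ∑ i, (u i : ℝ) * (w i : ℝ) := by
    calc (L : ℝ) = ∑ j, l j * (L : ℝ) := by rw [← Finset.sum_mul, h2, one_mul]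
      _ ≤ ∑ j, l j * ∑ i, (u i : ℝ) * (v j i : ℝ) := by
        refine Finset.sum_le_sum fun j _ => mul_le_mul_of_nonneg_left ?_ (h1 j)
        exact_mod_cast hL j
      _ = ∑ i, (u i : ℝ) * ∑ j, l j * (v j i : ℝ) := by
        simp only [Finset.mul_sum]
        rw [Finset.sum_comm]
        exact Finset.sum_congr rfl fun i _ => Finset.sum_congr rfl fun j _ => by ring
      _ ≤ ∑ i, (u i : ℝ) * (w i : ℝ) :=
        Finset.sum_le_sum fun i _ => mul_le_mul_of_nonneg_left (h3 i) (Nat.cast_nonneg _)
  exact_mod_cast h4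

/-- **Generic compositions.** -/
theorem comp_gen {F : Type} [Field F] [Algebra F ℂ] (hr : 0 < r) (n κ : ℕ)
    (π : Fin r → Fin (κ + 1)) (m : Fin r → Fin (n + κ) → ℕ)
    (hinj : ∀ j j', π j = π j' → m j = m j' → j = j') (hm : ∀ j, π j = 0 → m j ≠ 0)
    (H : Fin (κ + 1) → MvPolynomial (Fin (n + κ)) F)
    (hH : ∀ i, ∀ w ∈ (H i).support,
      NP (ex π m) (Finsupp.equivFunOnFinite.symm (exw i fun v => w v)))
    (hL : HypR (ex π m) (hG H)) :
    ∃ g : MvPolynomial (Fin r) F, g ≠ 0 ∧
      ∀ (k : Type) [Field k] [Algebra F k] [Algebra k ℂ] [IsScalarTower F k ℂ] (a : Fin r → k),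
      aeval (fun j => algebraMap k ℂ (a j)) g ≠ 0 →
      ∀ (c : Fin κ → k) (p : Fin κ → MvPolynomial (Fin n) k), (∀ i, c i ≠ 0) →
      (∀ i : Fin κ, tup π m a H i.succ = C (c i) * X (Fin.natAdd n i) -
        rename (Fin.castAdd κ) (p i)) →
      ∀ f : MvPolynomial (Fin n) k,
      f = aeval (Fin.append X fun i => C (c i)⁻¹ * p i) (tup π m a H 0) → f.totalDegree ≠ 0 →
      ∃ S : Finset (ℤ × ℤ),
        (∀ p ∈ S, p.1 < 0 ∧ 0 < p.2 ∧
          ∀ b : Polynomial ℂ, IsBFunction (map (algebraMap k ℂ) f) b →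
            b.eval ((p.1 : ℂ) / p.2) = 0) ∧
        ∀ (K : Type) [Field K] [Algebra k K] (W : Set (Pt K (Fin n)))
          (E : Set (AlgebraicClosure K)), Constr W → Good E →
          zetaG (map (algebraMap k K) f) W E ∈ ratRing K S := by
  classical
  have hv : Function.Injective (ex π m) := by
    intro j j' h
    have h1 : m j = m j' := by
      funext x
      refine Fin.addCases (fun i => ?_) (fun i => ?_) x
      · rw [← ex_x π m j i, h, ex_x]
      · rw [← ex_z π m j i, h, ex_z]
    refine hinj j j' ?_ h1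
    have h2 : ∀ i : Fin κ, (if π j = i.succ then 1 else 0) = if π j' = i.succ then 1 else 0 := by
      intro i
      rw [← ex_y π m j i, h, ex_y]
    rcases Fin.eq_zero_or_eq_succ (π j) with h3 | ⟨i, h3⟩
    · rcases Fin.eq_zero_or_eq_succ (π j') with h4 | ⟨i', h4⟩
      · rw [h3, h4]
      · have h5 := h2 i'
        rw [if_pos h4, if_neg] at h5
        · exact absurd h5 (by norm_num)
        · rw [h3]
          exact (Fin.succ_ne_zero i').symm
    · have h5 := h2 i
      rw [if_pos h3] at h5
      by_contra hcon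
      rw [if_neg] at h5
      · exact absurd h5 (by norm_num)
      · intro h6
        exact hcon (h3.trans h6.symm)
  have hv0 : ∀ j, ex π m j ≠ 0 := by
    intro j h
    rcases Fin.eq_zero_or_eq_succ (π j) with h3 | ⟨i, h3⟩
    · apply hm j h3
      funext x
      refine Fin.addCases (fun i => ?_) (fun i => ?_) x
      · rw [← ex_x π m j i, h]; rfl
      · rw [← ex_z π m j i, h]; rfl
    · have h4 := ex_y π m j i
      rw [if_pos h3, h] at h4
      exact absurd h4.symm (by norm_num)
  have hh : ∀ w ∈ (hG H).support, NP (ex π m) w := by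
    intro w hw
    obtain ⟨i, w0, h1, h2⟩ := supp_hG H w hw
    have h3 := hH i w0 h1
    have h4 : Finsupp.equivFunOnFinite.symm (exw i fun v => w0 v) = w :=
      Finsupp.ext fun x => (h2 x).symm
    rwa [h4] at h3
  obtain ⟨g, hg, hC⟩ := stab_gen hr n κ (ex π m) hv hv0 (hG H) hh hL
  refine ⟨g * ∏ j : Fin r, X j, mul_ne_zero hg (Finset.prod_ne_zero_iff.2 fun j _ => X_ne_zero j),
    ?_⟩
  intro k _ _ _ _ a ha c p hc hl f hff hf
  rw [map_mul, map_prod] at ha
  have hf0 : f ≠ 0 := by
    rintro rfl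
    exact hf totalDegree_zero
  obtain ⟨φ, hφ⟩ := comp_phi π m a H c hc p hl
  rw [← hff] at hφ
  obtain ⟨S, hS, hz⟩ := hC k a (left_ne_zero_of_mul ha) f hf φ hφ
  have hpos : ∀ (u : Fin (n + (κ + κ)) → ℕ) (L : ℕ), 0 < L →
      (∀ j, L ≤ ∑ i, u i * ex π m j i) → κ * L < ∑ i, u i := by
    intro u L hL0 hu
    refine pos' c hc p (tup π m a H) hl (hff ▸ hf0) u L hL0 fun i w hw => ?_
    unfold tup at hw
    rw [coeff_add] at hw
    by_cases h1 : coeff w (map (algebraMap F k) (H i)) = 0
    · rw [h1, add_zero, coeff_sum] at hw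
      obtain ⟨j, hj, hne⟩ := Finset.exists_ne_zero_of_sum_ne_zero hw
      have h2 : (C (a j) * ∏ v, X v ^ m j v : MvPolynomial (Fin (n + κ)) k) =
          monomial (Finsupp.equivFunOnFinite.symm (m j)) (a j) := by
        rw [monomial_eq, Finsupp.prod_fintype _ _ fun i => pow_zero _]
        rfl
      rw [h2, coeff_monomial] at hne
      have h3 : Finsupp.equivFunOnFinite.symm (m j) = w := by
        by_contra hcon
        rw [if_neg hcon] at hne
        exact hne rfl
      have h4 := hu j
      rw [ex_eq, (Finset.mem_filter.1 hj).2] at h4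
      rw [← h3]
      exact h4
    · have h2 : w ∈ (H i).support := by
        rw [mem_support_iff]
        intro h3
        apply h1
        rw [coeff_map, h3, map_zero]
      exact np_le (ex π m) _ (hH i w h2) u L hu
  refine ⟨S, fun q hq => ⟨?_, (hS q hq).1, (hS q hq).2.2⟩, hz⟩
  rcases (hS q hq).2.1 with rfl | ⟨u, hg, rfl⟩ | ⟨u, hg, rfl⟩
  · norm_num
  · have h1 := hpos u (gord (ex π m) u) hg fun j => gord_le _ _ j
    show -((∑ i, u i : ℕ) : ℤ) + κ * (gord (ex π m) u : ℤ) < 0
    have h2 : ((κ * gord (ex π m) u : ℕ) : ℤ) < ((∑ i, u i : ℕ) : ℤ) := by exact_mod_cast h1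
    push_cast at h2 ⊢
    linarith
  · set L := gord (exyz (ex π m)) u with hL
    have hle : ∀ j, L ≤ ∑ i, u i * exyz (ex π m) j i := fun j => gord_le _ _ j
    have h1 := hpos (fun i => u (Fin.castAdd 2 i)) L hg (by
      intro j
      have h2 := hle j.succ
      rw [Fin.sum_univ_add] at h2
      simpa [exyz, Fin.cons_succ, Fin.append_left, Fin.append_right] using h2)
    have h3 : L ≤ ∑ i : Fin 2, u (Fin.natAdd (n + (κ + κ)) i) := by
      have h2 := hle 0
      rw [Fin.sum_univ_add] at h2
      simpa [exyz, Fin.cons_zero, Fin.append_left, Fin.append_right] using h2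
    have h4 : ∑ i, u i = ∑ i : Fin (n + (κ + κ)), u (Fin.castAdd 2 i) +
        ∑ i : Fin 2, u (Fin.natAdd (n + (κ + κ)) i) := Fin.sum_univ_add u
    have h5 : (κ + 1) * L < ∑ i, u i := by
      rw [h4, add_mul, one_mul]
      omega
    show -((∑ i, u i : ℕ) : ℤ) + ((κ + 1 : ℕ) : ℤ) * (L : ℤ) < 0
    have h6 : (((κ + 1) * L : ℕ) : ℤ) < ((∑ i, u i : ℕ) : ℤ) := by exact_mod_cast h5
    push_cast at h6 ⊢
    linarith

end Pool.Agent.K4H43.GC
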