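import Pool.Agent.K4H43.GC.Hyp

/-!
# The descent
-/

set_option autoImplicit false

namespace Pool.Agent.K4H43.GC

open MvPolynomial Pool.Agent.H628R4.TP
open Pool.Agent.W425.ND (spa)
open Pool.Agent.W428.MOT (Pt Constr ratRing Lu MK)
open Pool.Agent.W375.MG (zetaG Good JetG ratRing_mono)
open Pool.Agent.Y229.RE (stab)
open Pool.Agent.Y229.PG (BecomesG becomes_global)
open Pool.Agent.Y229.MS

section
variable {K : Type} [Field K]

/-- `f` from `f + ∑ y_i z_i` -/
theorem stabK_back {n : ℕ} (f : MvPolynomial (Fin n) K) (κ : ℕ) :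
    aeval (Fin.append X fun _ : Fin (κ + κ) => (0 : MvPolynomial (Fin n) K)) (stabK f κ) = f := by
  unfold stabK
  rw [map_add, map_sum, aeval_rename]
  have e1 : (Fin.append (X : Fin n → MvPolynomial (Fin n) K) (fun _ : Fin (κ + κ) => 0)) ∘
      Fin.castAdd (κ + κ) = X := by
    funext i
    exact Fin.append_left _ _ _
  rw [e1, aeval_X_left_apply, Finset.sum_eq_zero, add_zero]
  intro i _
  rw [map_mul, aeval_X, Fin.append_right, zero_mul]

theorem stabK_deg {n : ℕ} {f : MvPolynomial (Fin n) K} (hf : f.totalDegree ≠ 0) (κ : ℕ) :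
    (stabK f κ).totalDegree ≠ 0 := by
  intro h
  rw [totalDegree_eq_zero_iff_eq_C] at h
  apply hf
  rw [totalDegree_eq_zero_iff_eq_C]
  have h1 := stabK_back f κ
  rw [h] at h1
  rw [← algebraMap_eq, AlgHom.commutes, algebraMap_eq] at h1
  rw [← h1, coeff_C, if_pos rfl]

theorem iso_deg {a b : ℕ} (ψ : MvPolynomial (Fin a) K ≃ₐ[K] MvPolynomial (Fin b) K)
    {g : MvPolynomial (Fin a) K} (hg : g.totalDegree ≠ 0) : (ψ g).totalDegree ≠ 0 := by
  intro h
  rw [totalDegree_eq_zero_iff_eq_C] at h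
  apply hg
  rw [totalDegree_eq_zero_iff_eq_C]
  have h1 : g = C (coeff 0 (ψ g)) := by
    apply ψ.injective
    rw [← algebraMap_eq, AlgEquiv.commutes, algebraMap_eq]
    exact h
  rw [h1, coeff_C, if_pos rfl]

theorem deg_map' {k : Type} [Field k] [Algebra k K] {n : ℕ} {f : MvPolynomial (Fin n) k}
    (hf : f.totalDegree ≠ 0) : (map (algebraMap k K) f).totalDegree ≠ 0 := by
  rwa [totalDegree, support_map_of_injective f (algebraMap k K).injective, ← totalDegree]

end

theorem addyz_map {k L : Type} [Field k] [Field L] (φ : k →+* L) {n : ℕ}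
    (f : MvPolynomial (Fin n) k) : map φ (addyz f) = addyz (map φ f) := by
  unfold addyz
  rw [map_add, map_mul, map_X, map_X, map_rename]


/-- **The descent.** `S1` for `G ≅ f + ∑ y_i z_i`, `S2` for `G' ≅ G + y z`. -/
theorem descG {k : Type} [Field k] [Algebra k ℂ] {n κ : ℕ}
    (f : MvPolynomial (Fin n) k) (hf : f.totalDegree ≠ 0)
    (G : MvPolynomial (Fin (n + (κ + κ))) k)
    (φ : MvPolynomial (Fin (n + (κ + κ))) k ≃ₐ[k] MvPolynomial (Fin (n + (κ + κ))) k)
    (hφ : φ (stabK f κ) = G)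
    (G' : MvPolynomial (Fin (n + (κ + κ) + 2)) k)
    (χ : MvPolynomial (Fin (n + (κ + κ) + 2)) k ≃ₐ[k] MvPolynomial (Fin (n + (κ + κ) + 2)) k)
    (hχ : χ (addyz G) = G')
    (S1 S2 : Finset (ℤ × ℤ)) (hp1 : ∀ p ∈ S1, 0 < p.2) (hp2 : ∀ p ∈ S2, 0 < p.2)
    (hr1 : (∀ c : Polynomial ℂ, IsBFunction (map (algebraMap k ℂ) f) ((Polynomial.X + 1) * c) →
      IsBFunction (map (algebraMap k ℂ) G)
        ((Polynomial.X + 1) * c.comp (Polynomial.X + Polynomial.C (κ : ℂ)))) →
      ∀ c : Polynomial ℂ, IsBFunction (map (algebraMap k ℂ) f) ((Polynomial.X + 1) * c) →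
        ∀ p ∈ S1, c.eval ((p.1 : ℂ) / p.2 + κ) = 0)
    (hr2 : (∀ c : Polynomial ℂ, IsBFunction (map (algebraMap k ℂ) f) ((Polynomial.X + 1) * c) →
      IsBFunction (map (algebraMap k ℂ) G)
        ((Polynomial.X + 1) * c.comp (Polynomial.X + Polynomial.C (κ : ℂ)))) →
      (∀ c : Polynomial ℂ, IsBFunction (map (algebraMap k ℂ) f) ((Polynomial.X + 1) * c) →
      IsBFunction (map (algebraMap k ℂ) G')
        ((Polynomial.X + 1) * (c.comp (Polynomial.X + Polynomial.C (κ : ℂ))).comp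
          (Polynomial.X + Polynomial.C ((1 : ℕ) : ℂ)))) →
      ∀ c : Polynomial ℂ, IsBFunction (map (algebraMap k ℂ) f) ((Polynomial.X + 1) * c) →
        ∀ p ∈ S2, c.eval ((p.1 : ℂ) / p.2 + (κ + 1 : ℕ)) = 0)
    (hz1 : ∀ (K : Type) [Field K] [Algebra k K] (W : Set (Pt K (Fin (n + (κ + κ)))))
        (E : Set (AlgebraicClosure K)), Constr W → Good E →
        fst' K * zetaG (map (algebraMap k K) G) W E ∈ ratRing K S1)
    (hz2 : ∀ (K : Type) [Field K] [Algebra k K] (W : Set (Pt K (Fin (n + (κ + κ) + 2))))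
        (E : Set (AlgebraicClosure K)), Constr W → Good E →
        fst' K * zetaG (map (algebraMap k K) G') W E ∈ ratRing K S2) :
    ∃ S : Finset (ℤ × ℤ),
      (∀ p ∈ S, 0 < p.2 ∧ (p = (-1, 1) ∨
          (∃ q ∈ S1, p = (q.1 + κ * q.2, q.2)) ∨
          (∃ q ∈ S2, p = (q.1 + ((κ + 1 : ℕ) : ℤ) * q.2, q.2))) ∧
        ∀ b : Polynomial ℂ, IsBFunction (map (algebraMap k ℂ) f) b →
          b.eval ((p.1 : ℂ) / p.2) = 0) ∧
      ∀ (K : Type) [Field K] [Algebra k K] (W : Set (Pt K (Fin n)))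
        (E : Set (AlgebraicClosure K)), Constr W → Good E →
        zetaG (map (algebraMap k K) f) W E ∈ ratRing K S := by
  classical
  set fC : MvPolynomial (Fin n) ℂ := map (algebraMap k ℂ) f with hfC
  have hfC0 : fC.totalDegree ≠ 0 := deg_map' hf
  obtain ⟨ψC, hψC⟩ := Pool.Agent.Y405.MS.bc k ℂ φ
  have hbec : BecomesG fC κ (map (algebraMap k ℂ) G) := by
    refine ⟨ψC, ?_⟩
    have e1 : stab fC κ = map (algebraMap k ℂ) (stabK f κ) := by
      rw [map_stabK]
      rfl
    rw [e1, hψC, hφ]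
  have hGC : (map (algebraMap k ℂ) G).totalDegree ≠ 0 := by
    rw [← hφ, ← hψC, map_stabK]
    exact iso_deg ψC (stabK_deg hfC0 κ)
  have hb1 : ∀ c' : Polynomial ℂ, IsBFunction fC ((Polynomial.X + 1) * c') →
      IsBFunction (map (algebraMap k ℂ) G) ((Polynomial.X + 1) *
        c'.comp (Polynomial.X + Polynomial.C (κ : ℂ))) := fun c' h =>
    (becomes_global hfC0 h hbec).2 c' rfl
  obtain ⟨χC, hχC⟩ := Pool.Agent.Y405.MS.bc k ℂ χ
  have hbec2 : BecomesG (map (algebraMap k ℂ) G) 1 (map (algebraMap k ℂ) G') := by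
    refine ⟨χC, ?_⟩
    have e1 : stab (map (algebraMap k ℂ) G) 1 = map (algebraMap k ℂ) (addyz G) := by
      rw [addyz_map]
      unfold stab addyz
      rw [Fin.sum_univ_one]
      rfl
    rw [e1, hχC, hχ]
  have hb2 : ∀ c' : Polynomial ℂ, IsBFunction fC ((Polynomial.X + 1) * c') →
      IsBFunction (map (algebraMap k ℂ) G') ((Polynomial.X + 1) *
        (c'.comp (Polynomial.X + Polynomial.C (κ : ℂ))).comp
          (Polynomial.X + Polynomial.C ((1 : ℕ) : ℂ))) := fun c' h =>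
    (becomes_global hGC (hb1 c' h) hbec2).2 _ rfl
  set S : Finset (ℤ × ℤ) := insert (-1, 1) (S1.image (fun q => (q.1 + κ * q.2, q.2)) ∪
    S2.image (fun q => (q.1 + ((κ + 1 : ℕ) : ℤ) * q.2, q.2))) with hS
  refine ⟨S, fun p hp => ?_, fun K _ _ W E hW hE => ?_⟩
  · rcases Finset.mem_insert.1 hp with rfl | hp
    · refine ⟨by norm_num, Or.inl rfl, fun b hb => ?_⟩
      have h5 := (becomes_global hfC0 hb hbec).1
      have h6 : (((-1 : ℤ) : ℂ) / ((1 : ℤ) : ℂ)) = -1 := by norm_num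
      simp only [h6]
      exact h5
    · rcases Finset.mem_union.1 hp with hp | hp
      · obtain ⟨q, hq, rfl⟩ := Finset.mem_image.1 hp
        refine ⟨hp1 q hq, Or.inr (Or.inl ⟨q, hq, rfl⟩), fun b hb => ?_⟩
        have h5 := (becomes_global hfC0 hb hbec).1
        obtain ⟨c', hc'⟩ : (Polynomial.X + 1 : Polynomial ℂ) ∣ b := by
          have := Polynomial.dvd_iff_isRoot.2 h5
          simpa using this
        have h6 := hr1 hb1 c' (hc' ▸ hb) q hq
        rw [hc', Polynomial.eval_mul]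
        have h7 : ((q.2 : ℤ) : ℂ) ≠ 0 := by exact_mod_cast (hp1 q hq).ne'
        have h8 : (((q.1 + κ * q.2 : ℤ) : ℂ) / ((q.2 : ℤ) : ℂ)) = (q.1 : ℂ) / q.2 + κ := by
          push_cast
          field_simp
        simp only
        rw [h8, h6, mul_zero]
      · obtain ⟨q, hq, rfl⟩ := Finset.mem_image.1 hp
        refine ⟨hp2 q hq, Or.inr (Or.inr ⟨q, hq, rfl⟩), fun b hb => ?_⟩
        have h5 := (becomes_global hfC0 hb hbec).1
        obtain ⟨c', hc'⟩ : (Polynomial.X + 1 : Polynomial ℂ) ∣ b := by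
          have := Polynomial.dvd_iff_isRoot.2 h5
          simpa using this
        have h6 := hr2 hb1 hb2 c' (hc' ▸ hb) q hq
        rw [hc', Polynomial.eval_mul]
        have h7 : ((q.2 : ℤ) : ℂ) ≠ 0 := by exact_mod_cast (hp2 q hq).ne'
        have h8 : (((q.1 + ((κ + 1 : ℕ) : ℤ) * q.2 : ℤ) : ℂ) / ((q.2 : ℤ) : ℂ)) =
            (q.1 : ℂ) / q.2 + ((κ + 1 : ℕ) : ℂ) := by
          push_cast
          field_simp
        simp only
        rw [h8, h6, mul_zero]
  · have hK : CharZero K := by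
      have hkc : CharZero k := RingHom.charZero (algebraMap k ℂ)
      exact charZero_of_injective_algebraMap (algebraMap k K).injective
    have hE' : CE E := ce_good hE
    set fK : MvPolynomial (Fin n) K := map (algebraMap k K) f with hfK
    obtain ⟨ψ1, hψ1⟩ := Pool.Agent.Y405.MS.itr K fK κ
    obtain ⟨ψ2, hψ2⟩ := Pool.Agent.Y405.MS.bc k K φ
    set ψ := ψ1.trans ψ2 with hψ
    have e1 : ψ (itr fK κ) = map (algebraMap k K) G := by
      show ψ2 (ψ1 (itr fK κ)) = _
      rw [hψ1, hfK, ← map_stabK, hψ2, hφ]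
    obtain ⟨ψ3, hψ3⟩ := Pool.Agent.Y405.MS.ext K ψ
    obtain ⟨ψ4, hψ4⟩ := Pool.Agent.Y405.MS.bc k K χ
    set ψ' := ψ3.trans ψ4 with hψ'
    have e2 : ψ' (addyz (itr fK κ)) = map (algebraMap k K) G' := by
      show ψ4 (ψ3 (addyz (itr fK κ))) = _
      rw [hψ3, e1, ← addyz_map, hψ4, hχ]
    have hW1 : Constr (Witr W κ) := constr_Witr hW κ
    have hW2 : Constr (Wyz (Witr W κ)) := constr_Wyz hW1
    have z1 := hz1 K _ E (constr_pull ψ hW1) hE
    have z2 := hz2 K _ E (constr_pull ψ' hW2) hE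
    rw [← e1, zeta_iso Pool.Agent.Z864.MS.three (by ring) ψ _ hW1 hE'] at z1
    rw [← e2, zeta_iso Pool.Agent.Z864.MS.three (by ring) ψ' _ hW2 hE'] at z2
    have z3 := descend' fK hW hE' κ S1 S2 (fun p hp => hp1 p hp)
      (fun p hp => hp2 p hp) z1 z2
    refine ratRing_mono ?_ (zeta_of_fst fK W E _ z3)
    rintro p (rfl | ⟨q, hq, rfl⟩ | ⟨q, hq, rfl⟩)
    · exact Finset.mem_coe.2 (Finset.mem_insert_self _ _)
    · exact Finset.mem_coe.2 (Finset.mem_insert_of_mem (Finset.mem_union_left _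
        (Finset.mem_image_of_mem (fun q : ℤ × ℤ => (q.1 + (κ : ℤ) * q.2, q.2)) hq)))
    · exact Finset.mem_coe.2 (Finset.mem_insert_of_mem (Finset.mem_union_right _
        (Finset.mem_image_of_mem (fun q : ℤ × ℤ => (q.1 + ((κ + 1 : ℕ) : ℤ) * q.2, q.2)) hq)))

/-- the scaling `y ↦ t y` -/
noncomputable def sca {K : Type} [Field K] {N : ℕ} (t : K) :
    MvPolynomial (Fin (N + 2)) K →ₐ[K] MvPolynomial (Fin (N + 2)) K :=
  aeval (Fin.addCases (fun i : Fin N => X (Fin.castAdd 2 i)) (fun s : Fin 2 =>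
    if s = 0 then C t * X (Fin.natAdd N 0) else X (Fin.natAdd N 1)))

theorem sca_comp {K : Type} [Field K] {N : ℕ} {t t' : K} (h : t * t' = 1) :
    (sca t).comp (sca t') = AlgHom.id K (MvPolynomial (Fin (N + 2)) K) := by
  refine MvPolynomial.algHom_ext fun j => ?_
  refine Fin.addCases (fun i => ?_) (fun s => ?_) j
  · unfold sca
    rw [AlgHom.comp_apply, aeval_X, Fin.addCases_left, aeval_X, Fin.addCases_left,
      AlgHom.id_apply]
  · fin_cases s
    · show sca t (sca t' (X (Fin.natAdd N 0))) = X (Fin.natAdd N 0)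
      unfold sca
      rw [aeval_X, Fin.addCases_right, if_pos rfl, map_mul, aeval_X, Fin.addCases_right,
        if_pos rfl, ← algebraMap_eq, AlgHom.commutes, algebraMap_eq, ← mul_assoc, ← C_mul,
        mul_comm t' t, h, C_1, one_mul]
    · show sca t (sca t' (X (Fin.natAdd N 1))) = X (Fin.natAdd N 1)
      unfold sca
      rw [aeval_X, Fin.addCases_right, if_neg (by decide), aeval_X, Fin.addCases_right,
        if_neg (by decide)]

/-- the scaling -/
noncomputable def scaE {K : Type} [Field K] {N : ℕ} (t : K) (ht : t ≠ 0) :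
    MvPolynomial (Fin (N + 2)) K ≃ₐ[K] MvPolynomial (Fin (N + 2)) K :=
  AlgEquiv.ofAlgHom (sca t) (sca t⁻¹) (sca_comp (mul_inv_cancel₀ ht))
    (sca_comp (inv_mul_cancel₀ ht))

theorem scaE_addyz {K : Type} [Field K] {N : ℕ} (t : K) (ht : t ≠ 0)
    (G : MvPolynomial (Fin N) K) : scaE t ht (addyz G) =
      rename (Fin.castAdd 2) G + C t * (X (Fin.natAdd N 0) * X (Fin.natAdd N 1)) := by
  show sca t (addyz G) = _
  unfold addyz
  have h1 : sca t (rename (Fin.castAdd 2) G) = rename (Fin.castAdd 2) G := by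
    have h2 : (sca t).comp (rename (Fin.castAdd 2)) =
        (rename (Fin.castAdd 2) : MvPolynomial (Fin N) K →ₐ[K] _) := by
      refine MvPolynomial.algHom_ext fun i => ?_
      rw [AlgHom.comp_apply, rename_X]
      unfold sca
      rw [aeval_X, Fin.addCases_left]
    exact congrArg (fun θ : MvPolynomial (Fin N) K →ₐ[K] MvPolynomial (Fin (N + 2)) K => θ G) h2
  rw [map_add, map_mul, h1]
  unfold sca
  rw [aeval_X, Fin.addCases_right, if_pos rfl, aeval_X, Fin.addCases_right,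
    if_neg (by decide)]
  ring

/-- the coefficients -/
theorem spa_exyz {K : Type} [Field K] {N r : ℕ} (v : Fin r → Fin N → ℕ) (c : Fin r → K) (t : K) :
    spa (exyz v) (Fin.cons t c) = rename (Fin.castAdd 2) (spa v c) +
      C t * (X (Fin.natAdd N 0) * X (Fin.natAdd N 1)) := by
  unfold spa exyz
  rw [Fin.sum_univ_succ]
  simp only [Fin.cons_zero, Fin.cons_succ, Fin.prod_univ_add, Fin.append_left, Fin.append_right,
    pow_zero, pow_one, Finset.prod_const_one, one_mul, mul_one, map_sum, map_mul, map_prod,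
    map_pow, rename_X, rename_C, Fin.prod_univ_two]
  exact add_comm _ _

end Pool.Agent.K4H43.GC
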