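import Pool.Agent.K4H43.GC.Gen

/-!
# Generic coefficients: the rings, refined
-/

set_option autoImplicit false

namespace Pool.Agent.K4H43.GC

open MvPolynomial Pool.Agent.H628R4.TP Pool.Agent.W425.MM Pool.Agent.W425.GN
open Pool.Agent.W425.ND (spa)
open Pool.Agent.W426.SM (gord IsRay face)
open Pool.Agent.W803.SM (gord_le exists_gord)
open Pool.Agent.W425.SV (NP Kil1)
open Pool.Agent.TH216.MF (RelG KilU InC HypS kept ke)
open Pool.Agent.TH216.MC
open Pool.Agent.W428.MOT (Pt Constr ratRing sp Lu MK)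
open Pool.Agent.W375.MG (zetaG Good)
open Pool.Agent.Y229.MS

variable {r N : ℕ}

/-- the rings, for all the coefficients -/
theorem fst_S0 (hr : 0 < r) {F : Type} [Field F] (v : Fin r → Fin N → ℕ)
    (hv : Function.Injective v) (hv0 : ∀ j, v j ≠ 0)
    (h : MvPolynomial (Fin N) F) (hh : ∀ w ∈ h.support, NP v w)
    (hvh : ∀ w ∈ h.support, ∀ j, ¬ ∀ x, w x = v j x) :
    ∃ S : Finset (ℤ × ℤ),
      (∀ p ∈ S, ∃ a : Fin N → ℕ, IsRay v a ∧ 0 < gord v a ∧
        (HypS (Fin.append v (ke v h)) (((((∑ i, a i : ℕ) : ℚ) / gord v a : ℚ) : ℝ)) →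
          RP v h (-(((∑ i, a i : ℕ) : ℚ) / gord v a))) ∧
        p = (-((∑ i, a i : ℕ) : ℤ), (gord v a : ℤ))) ∧
      ∀ (k : Type) [Field k] [Algebra F k] [Algebra k ℂ] (c : Fin r → k), (∀ j, c j ≠ 0) →
        NonD (Fin.append v (we h)) (fun j => algebraMap k ℂ
          (Fin.append c (fun l => algebraMap F k (wc h l)) j)) →
        ∀ (K : Type) [Field K] [Algebra k K] (W : Set (Pt K (Fin N)))
          (E : Set (AlgebraicClosure K)), Constr W → Good E →
          fst' K * zetaG (spa v (fun j => algebraMap k K (c j)) +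
            MvPolynomial.map ((algebraMap k K).comp (algebraMap F k)) h) W E ∈ ratRing K S := by
  classical
  have hne : NeZero r := ⟨by omega⟩
  have hray := pRAY v (we h) hr (we_np v h hh)
  obtain ⟨S, hS, hz1⟩ := Pool.Agent.Y824.MS.four (Fin.append v (we h)) (by omega) _
    (hb_gen' hr v hv h hvh (RP v h) (fun α hα => relR v hv hv0 h hh α hα))
  refine ⟨S, fun p hp => ?_, fun k _ _ _ c hc hnk K _ _ W E hW hE => ?_⟩
  · obtain ⟨a, ha, hg, hn, h1⟩ := hS p hp
    obtain ⟨hga, hra⟩ := hray a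
    rw [hga] at hg hn h1
    refine ⟨a, hra ha, hg, fun hL => ?_, h1⟩
    by_contra hcon
    exact hn ⟨hL, hcon⟩
  · have hK : CharZero K := by
      have hkc : CharZero k := RingHom.charZero (algebraMap k ℂ)
      exact charZero_of_injective_algebraMap (algebraMap k K).injective
    rw [sp_eq]
    refine hz1 K _ (nonG_of_nonD _ _ ?_) (fun j => ?_) W E hW hE
    · have h4 := nonD_ext (k := k) (L := AlgebraicClosure K) _ _ hnk
      have h5 : (fun j => algebraMap K (AlgebraicClosure K)
          (Fin.append (fun j => algebraMap k K (c j))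
            (fun l => (algebraMap k K).comp (algebraMap F k) (wc h l)) j)) =
          fun j => algebraMap k (AlgebraicClosure K)
            (Fin.append c (fun l => algebraMap F k (wc h l)) j) := by
        rw [append_map, append_map]
        congr 1
      rw [h5]
      exact h4
    · refine Fin.addCases (fun j => ?_) (fun l => ?_) j
      · rw [Fin.append_left]
        exact (map_ne_zero _).2 (hc j)
      · rw [Fin.append_right]
        exact (map_ne_zero _).2 (mem_support_iff.1 (h.support.equivFin.symm l).2)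

/-- the pairs in a finite set, their roots and the rings -/
theorem fst_gen {F : Type} [Field F] [Algebra F ℂ] (hr : 0 < r) (v : Fin r → Fin N → ℕ)
    (hv : Function.Injective v) (hv0 : ∀ j, v j ≠ 0)
    (h : MvPolynomial (Fin N) F) (hh : ∀ w ∈ h.support, NP v w)
    (hvh : ∀ w ∈ h.support, ∀ j, ¬ ∀ x, w x = v j x) :
    ∃ (S : Finset (ℤ × ℤ)) (g : MvPolynomial (Fin r) F), g ≠ 0 ∧
      (∀ p ∈ S, ∃ a : Fin N → ℕ, IsRay v a ∧ 0 < gord v a ∧
        (HypS (Fin.append v (ke v h)) (((((∑ i, a i : ℕ) : ℚ) / gord v a : ℚ) : ℝ)) →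
          RP v h (-(((∑ i, a i : ℕ) : ℚ) / gord v a))) ∧
        p = (-((∑ i, a i : ℕ) : ℤ), (gord v a : ℤ))) ∧
      ∀ (k : Type) [Field k] [Algebra F k] [Algebra k ℂ] [IsScalarTower F k ℂ] (c : Fin r → k),
        aeval (fun j => algebraMap k ℂ (c j)) g ≠ 0 →
        (∀ b : Polynomial ℂ, IsBFunction (spa v (fun j => algebraMap k ℂ (c j)) +
          MvPolynomial.map (algebraMap F ℂ) h) ((Polynomial.X + 1) * b) →
          ∀ α : ℚ, RP v h α → b.eval (α : ℂ) = 0) ∧
        ∀ (K : Type) [Field K] [Algebra k K] (W : Set (Pt K (Fin N)))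
          (E : Set (AlgebraicClosure K)), Constr W → Good E →
          fst' K * zetaG (spa v (fun j => algebraMap k K (c j)) +
            MvPolynomial.map ((algebraMap k K).comp (algebraMap F k)) h) W E ∈ ratRing K S := by
  classical
  obtain ⟨g1, hg1, h1⟩ := rootsR hr v hv h
  obtain ⟨g2, hg2, h2⟩ := gen_nonDF pF4 hr v (we h) (we_np v h hh) (wc h)
  have hg3 : (∏ j : Fin r, (X j : MvPolynomial (Fin r) F)) ≠ 0 :=
    Finset.prod_ne_zero_iff.2 fun j _ => X_ne_zero j
  obtain ⟨S, hS, hz⟩ := fst_S0 hr v hv hv0 h hh hvh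
  refine ⟨S, g1 * g2 * ∏ j : Fin r, (X j : MvPolynomial (Fin r) F),
    mul_ne_zero (mul_ne_zero hg1 hg2) hg3, hS, fun k _ _ _ _ c hc => ?_⟩
  rw [map_mul, map_mul, map_prod] at hc
  have hcne : ∀ j, c j ≠ 0 := by
    intro j hj
    have h5 := Finset.prod_ne_zero_iff.1 (right_ne_zero_of_mul hc) j (Finset.mem_univ j)
    rw [aeval_X, hj, map_zero] at h5
    exact h5 rfl
  have hb := h1 _ (left_ne_zero_of_mul (left_ne_zero_of_mul hc))
  have hnd := h2 _ (right_ne_zero_of_mul (left_ne_zero_of_mul hc))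
  have hnk : NonD (Fin.append v (we h)) (fun j => algebraMap k ℂ
      (Fin.append c (fun l => algebraMap F k (wc h l)) j)) := by
    rw [append_map]
    simp only [← IsScalarTower.algebraMap_apply F k ℂ]
    exact hnd
  exact ⟨hb, hz k c hcne hnk⟩

end Pool.Agent.K4H43.GC
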