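import Pool.Agent.Y229.MS.Fin
import Pool.Agent.TH216.MF.MotM

/-!
# Generic coefficients, refined
-/

set_option autoImplicit false

namespace Pool.Agent.K4H43.GC

open MvPolynomial Pool.Agent.H628R4.TP Pool.Agent.W425.MM Pool.Agent.W425.GN
open Pool.Agent.W425.ND (spa)
open Pool.Agent.W426.SM (gord IsRay face)
open Pool.Agent.W803.SM (gord_le exists_gord)
open Pool.Agent.W425.BF (hz hz_support hz_eq)
open Pool.Agent.W425.SV (NP Kil1)
open Pool.Agent.TH216.MF (RelG KilU InC HypS PhiC
  kept ke LocS mem_kept ke_mem inC_append inC_self hypS_of_locS relG_of_relV relG_ext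
  rel_of_not_HP krelJ_phi recJ_gen aJ_phi)
open Pool.Agent.TH216.MC
open Pool.Agent.W428.MOT (Pt Constr ratRing sp Lu MK)
open Pool.Agent.W375.MG (zetaG Good)
open Pool.Agent.Y229.MS

variable {r N : ℕ}

/-- the bad levels, for exponents with those of `h` -/
theorem hb_gen' (hr : 0 < r) {F : Type} [Field F] (v : Fin r → Fin N → ℕ)
    (hv : Function.Injective v) (h : MvPolynomial (Fin N) F)
    (hvh : ∀ w ∈ h.support, ∀ j, ¬ ∀ x, w x = v j x) (P : ℚ → Prop)
    (hP : ∀ α, ¬ P α → ∃ (θ : Fin (r + (kept v h).card) → ℤ) (p : Polynomial ℂ),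
      RelG (Fin.append v (ke v h)) (Kil1 (Fin.append v (ke v h)))
        (KilU (Fin.append v (ke v h)) θ) p ∧ p.eval (α : ℂ) ≠ 0) :
    HB (Fin.append v (we h)) fun σ => HypS (Fin.append v (ke v h)) (σ : ℝ) ∧ ¬ P (-σ) := by
  classical
  have hminj : Function.Injective (Fin.append v (we h)) := by
    intro j j'
    refine Fin.addCases (fun j => ?_) (fun l => ?_) j <;>
      refine Fin.addCases (fun j' => ?_) (fun l' => ?_) j'
    · rw [Fin.append_left, Fin.append_left]
      intro h3
      rw [hv h3]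
    · rw [Fin.append_left, Fin.append_right]
      intro h3
      exact absurd (fun x => (congrFun h3 x).symm)
        (hvh _ (h.support.equivFin.symm l').2 j)
    · rw [Fin.append_left, Fin.append_right]
      intro h3
      exact absurd (fun x => congrFun h3 x) (hvh _ (h.support.equivFin.symm l).2 j')
    · rw [Fin.append_right, Fin.append_right]
      intro h3
      have h4 : (h.support.equivFin.symm l) = (h.support.equivFin.symm l') :=
        Subtype.ext (Finsupp.ext fun x => congrFun h3 x)
      rw [h.support.equivFin.symm.injective h4]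
  have hma : ∀ j', ∃ j, Fin.append v (we h) j = Fin.append v (ke v h) j' := by
    intro j'
    refine Fin.addCases (fun j => ?_) (fun l => ?_) j'
    · exact ⟨Fin.castAdd _ j, by rw [Fin.append_left, Fin.append_left]⟩
    · obtain ⟨w, hw, hwe, -⟩ := ke_mem v h l
      refine ⟨Fin.natAdd r (h.support.equivFin ⟨w, hw⟩), ?_⟩
      rw [Fin.append_right, Fin.append_right]
      funext i
      rw [hwe]
      unfold we
      rw [Equiv.symm_apply_apply]
  have hmb : ∀ j, InC (Fin.append v (ke v h)) Finset.univ (Fin.append v (we h) j) := by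
    intro j
    refine Fin.addCases (fun j => ?_) (fun l => ?_) j
    · rw [Fin.append_left]
      exact inC_append v _ _ (inC_self v _ j (Finset.mem_univ _))
    · rw [Fin.append_right]
      by_cases hC : InC v Finset.univ (we h l)
      · exact inC_append v _ _ hC
      · have hmem : (h.support.equivFin.symm l).1 ∈ kept v h :=
          (mem_kept v h _).2 ⟨(h.support.equivFin.symm l).2, hC⟩
        have h3 : Fin.append v (ke v h) (Fin.natAdd r ((kept v h).equivFin ⟨_, hmem⟩)) =
            we h l := by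
          rw [Fin.append_right]
          funext i
          unfold ke
          rw [Equiv.symm_apply_apply]
          rfl
        rw [← h3]
        exact inC_self _ _ _ (Finset.mem_univ _)
  rintro J q hq e he T0 hT0 σ ⟨hL, hPσ⟩ hlog
  obtain ⟨θ, p, hrel, hp⟩ := hP _ hPσ
  have he' := krelJ_phi (Fin.append v (we h)) (Fin.append v (ke v h)) hminj hma q J e he
  have h1 : ((-Real.log ‖T0‖ / Real.log q : ℝ) : ℂ) = ((-σ : ℚ) : ℂ) := by
    rw [neg_div, hlog]
    push_cast
    rfl
  obtain ⟨Q, hQ, hrec⟩ := recJ_gen q hq (Fin.append v (ke v h)) p θ hrel J _ he' T0 hT0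
    (by rw [h1]; exact hp) (by rw [hlog]; exact hL)
  refine ⟨Q, hQ, ?_⟩
  filter_upwards [hrec] with t ht
  rw [← ht]
  refine Finset.sum_congr rfl fun m _ => ?_
  rw [aJ_phi (Fin.append v (we h)) (Fin.append v (ke v h)) (by omega) (by omega) hma hmb]

/-- the multiplicity which is allowed -/
def mult (α : ℚ) : ℕ := if α = -1 then 1 else 0

/-- `α` is a root of the reduced polynomials -/
def RP {F : Type} [Field F] (v : Fin r → Fin N → ℕ) (h : MvPolynomial (Fin N) F) (α : ℚ) : Prop :=
  HP v h α (mult α)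

theorem relR [NeZero r] {F : Type} [Field F] (v : Fin r → Fin N → ℕ)
    (hv : Function.Injective v) (hv0 : ∀ j, v j ≠ 0) (h : MvPolynomial (Fin N) F)
    (hh : ∀ w ∈ h.support, NP v w) (α : ℚ) (hn : ¬ RP v h α) :
    ∃ (θ : Fin (r + (kept v h).card) → ℤ) (p : Polynomial ℂ),
      RelG (Fin.append v (ke v h)) (Kil1 (Fin.append v (ke v h)))
        (KilU (Fin.append v (ke v h)) θ) p ∧ p.eval (α : ℂ) ≠ 0 := by
  obtain ⟨θ, p, hp0, hrel, hmult⟩ := rel_of_not_HP v hv hv0 h hh α _ hn
  refine ⟨θ, p, hrel, ?_⟩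
  unfold mult at hmult
  by_cases hα : α = -1
  · rw [if_pos hα] at hmult
    intro h0
    have hX : (Polynomial.X + 1 : Polynomial ℂ) ≠ 0 := Polynomial.X_add_C_ne_zero 1
    have h1 : (Polynomial.X + 1) * p ≠ 0 := mul_ne_zero hX hp0
    rw [Polynomial.rootMultiplicity_mul h1] at hmult
    have h2 : 0 < p.rootMultiplicity (α : ℂ) := (Polynomial.rootMultiplicity_pos hp0).2 h0
    have h3 : 0 < (Polynomial.X + 1 : Polynomial ℂ).rootMultiplicity (α : ℂ) := by
      refine (Polynomial.rootMultiplicity_pos hX).2 ?_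
      show (Polynomial.X + 1 : Polynomial ℂ).eval _ = 0
      rw [hα]
      simp
    omega
  · rw [if_neg hα] at hmult
    exact eval_ne_of_mult hp0 _ hmult

/-- the roots of the reduced polynomials -/
theorem rootsR {F : Type} [Field F] [Algebra F ℂ] (hr : 0 < r) (v : Fin r → Fin N → ℕ)
    (hv : Function.Injective v) (h : MvPolynomial (Fin N) F) :
    ∃ g : MvPolynomial (Fin r) F, g ≠ 0 ∧ ∀ c : Fin r → ℂ, aeval c g ≠ 0 →
      ∀ b : Polynomial ℂ, IsBFunction (spa v c + MvPolynomial.map (algebraMap F ℂ) h)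
        ((Polynomial.X + 1) * b) → ∀ α : ℚ, RP v h α → b.eval (α : ℂ) = 0 := by
  have hne : NeZero r := ⟨by omega⟩
  obtain ⟨g, hg, hgb⟩ := univ pF4 pR1 hr v hv h
  refine ⟨g, hg, fun c hc b hb α hα => ?_⟩
  have h2 := hgb c hc _ ((bfun_iff _ _).1 hb) α _ hα
  unfold mult at h2
  by_cases h3 : α = -1
  · rw [if_pos h3, h3] at h2
    have e : (Polynomial.X - Polynomial.C (((-1 : ℚ) : ℚ) : ℂ)) = (Polynomial.X + 1) := by
      push_cast
      rw [map_neg, map_one, sub_neg_eq_add]
    rw [e, pow_two] at h2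
    have hX : (Polynomial.X + 1 : Polynomial ℂ) ≠ 0 := Polynomial.X_add_C_ne_zero 1
    have h4 := (mul_dvd_mul_iff_left hX).1 h2
    obtain ⟨d, rfl⟩ := h4
    rw [Polynomial.eval_mul, h3]
    simp
  · rw [if_neg h3, zero_add, pow_one, Polynomial.dvd_iff_isRoot] at h2
    have h4 : ((Polynomial.X + 1) * b).eval (α : ℂ) = 0 := h2
    rw [Polynomial.eval_mul, mul_eq_zero] at h4
    rcases h4 with h4 | h4
    · exfalso
      apply h3
      rw [Polynomial.eval_add, Polynomial.eval_X, Polynomial.eval_one] at h4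
      have h5 : ((α + 1 : ℚ) : ℂ) = 0 := by push_cast; exact h4
      have h6 : α + 1 = 0 := by exact_mod_cast h5
      linarith
    · exact h4

end Pool.Agent.K4H43.GC
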