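import Pool.Agent.K4H43.GC.Fst

/-!
# The conditions for `G + y z`
-/

set_option autoImplicit false

namespace Pool.Agent.K4H43.GC

open MvPolynomial
open Pool.Agent.W426.SM (gord IsRay face)
open Pool.Agent.W425.SV (NP Kil1)
open Pool.Agent.TH216.MF (HypS Forced InC kept ke mem_kept ke_mem)
open Pool.Agent.Y229.MS

variable {N : ℕ}

/-- `y z` -/
def yz (N : ℕ) : Fin (N + 2) → ℕ := Fin.append (fun _ => 0) (fun _ => 1)

/-- the exponent `(u, 0)` -/
def e0 (u : Fin N → ℕ) : Fin (N + 2) → ℕ := Fin.append u (fun _ => 0)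

@[simp] theorem yz_x (i : Fin N) : yz N (Fin.castAdd 2 i) = 0 := by
  unfold yz; rw [Fin.append_left]

@[simp] theorem yz_t (t : Fin 2) : yz N (Fin.natAdd N t) = 1 := by
  unfold yz; rw [Fin.append_right]

@[simp] theorem e0_x (u : Fin N → ℕ) (i : Fin N) : e0 u (Fin.castAdd 2 i) = u i := by
  unfold e0; rw [Fin.append_left]

@[simp] theorem e0_t (u : Fin N → ℕ) (t : Fin 2) : e0 u (Fin.natAdd N t) = 0 := by
  unfold e0; rw [Fin.append_right]

theorem sum_yz {A : Type} [CommSemiring A] (a : Fin (N + 2) → A) :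
    ∑ i, a i * (yz N i : A) = a (Fin.natAdd N 0) + a (Fin.natAdd N 1) := by
  rw [Fin.sum_univ_add]
  simp

theorem sum_e0 {A : Type} [CommSemiring A] (a : Fin (N + 2) → A) (u : Fin N → ℕ) :
    ∑ i, a i * (e0 u i : A) = ∑ i, a (Fin.castAdd 2 i) * (u i : A) := by
  rw [Fin.sum_univ_add]
  simp

theorem exyz_zero {r : ℕ} (v : Fin r → Fin N → ℕ) : exyz v 0 = yz N := by
  unfold exyz yz
  rw [Fin.cons_zero]

theorem exyz_succ {r : ℕ} (v : Fin r → Fin N → ℕ) (j : Fin r) : exyz v j.succ = e0 (v j) := by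
  unfold exyz e0
  rw [Fin.cons_succ]

/-- the exponents of the index -/
def opt {R : ℕ} (u : Fin R → Fin N → ℕ) : Option (Fin R) → Fin (N + 2) → ℕ
  | none => yz N
  | some j => e0 (u j)

/-- **The condition for `G + y z`.** -/
theorem hypS_ext {R R' : ℕ} (u : Fin R → Fin N → ℕ) (u' : Fin R' → Fin (N + 2) → ℕ)
    (e : Fin R' ≃ Option (Fin R)) (he : ∀ j', u' j' = opt u (e j')) (σ : ℝ) (h : HypS u σ) :
    HypS u' (σ + 1) := by
  classical
  have hn : u' (e.symm none) = yz N := by rw [he, Equiv.apply_symm_apply]; rfl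
  have hs : ∀ j, u' (e.symm (some j)) = e0 (u j) := fun j => by
    rw [he, Equiv.apply_symm_apply]; rfl
  intro A' Z' hne hsum hA
  obtain ⟨a0, ha0⟩ := hne
  by_cases hz : e.symm none ∈ Z'
  · exfalso
    have hY : ∀ t : Fin 2, Fin.natAdd N t ∉ A' := by
      intro t ht
      obtain ⟨j', hj', hpos⟩ := hA _ ht
      rw [he] at hpos
      rcases h1 : e j' with _ | j
      · apply hj'
        rw [← h1, Equiv.symm_apply_apply] at hz
        exact hz
      · rw [h1] at hpos
        change 0 < e0 (u j) (Fin.natAdd N t) at hpos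
        rw [e0_t] at hpos
        exact absurd hpos (lt_irrefl _)
    have h1 := ha0.2.2.1 (e.symm none)
    rw [hn, sum_yz, ha0.2.1 _ (hY 0), ha0.2.1 _ (hY 1)] at h1
    norm_num at h1
  -- the restriction
  set A : Finset (Fin N) := Finset.univ.filter fun i => Fin.castAdd 2 i ∈ A' with hAd
  set Z : Finset (Fin R) := Finset.univ.filter fun j => e.symm (some j) ∈ Z' with hZd
  have mA : ∀ i, i ∈ A ↔ Fin.castAdd 2 i ∈ A' := fun i => by
    rw [hAd, Finset.mem_filter]
    exact ⟨fun h => h.2, fun h => ⟨Finset.mem_univ _, h⟩⟩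
  have mZ : ∀ j, j ∈ Z ↔ e.symm (some j) ∈ Z' := fun i => by
    rw [hZd, Finset.mem_filter]
    exact ⟨fun h => h.2, fun h => ⟨Finset.mem_univ _, h⟩⟩
  have hres : ∀ a' ∈ Pool.Agent.TH216.MF.Pt u' A' Z',
      (fun i => a' (Fin.castAdd 2 i)) ∈ Pool.Agent.TH216.MF.Pt u A Z := by
    intro a' ha'
    refine ⟨fun i => ha'.1 _, fun i hi => ha'.2.1 _ fun h => hi ((mA i).2 h), fun j => ?_,
      fun j hj => ?_⟩
    · have h1 := ha'.2.2.1 (e.symm (some j))
      rw [hs, sum_e0] at h1
      exact h1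
    · have h1 := ha'.2.2.2 (e.symm (some j)) fun h => hj ((mZ j).2 h)
      rw [hs, sum_e0] at h1
      exact h1
  have hyz1 : ∀ a' ∈ Pool.Agent.TH216.MF.Pt u' A' Z',
      a' (Fin.natAdd N 0) + a' (Fin.natAdd N 1) = 1 := by
    intro a' ha'
    have h1 := ha'.2.2.2 _ hz
    rw [hn, sum_yz] at h1
    exact h1
  have hext : ∀ a ∈ Pool.Agent.TH216.MF.Pt u A Z,
      (Fin.append a (fun t => a0 (Fin.natAdd N t)) : Fin (N + 2) → ℚ) ∈
        Pool.Agent.TH216.MF.Pt u' A' Z' := by
    intro a ha
    have hsumj : ∀ j', ∑ i, (Fin.append a (fun t => a0 (Fin.natAdd N t)) : Fin (N + 2) → ℚ) i *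
        (u' j' i : ℚ) = match e j' with
          | none => 1
          | some j => ∑ i, a i * (u j i : ℚ) := by
      intro j'
      rw [he]
      rcases h1 : e j' with _ | j
      · show ∑ i, _ * (yz N i : ℚ) = 1
        rw [sum_yz, Fin.append_right, Fin.append_right]
        exact hyz1 a0 ha0
      · show ∑ i, _ * (e0 (u j) i : ℚ) = _
        rw [sum_e0]
        simp only [Fin.append_left]
    refine ⟨fun i => ?_, fun i hi => ?_, fun j' => ?_, fun j' hj' => ?_⟩
    · refine Fin.addCases (fun i => ?_) (fun t => ?_) i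
      · rw [Fin.append_left]; exact ha.1 i
      · rw [Fin.append_right]; exact ha0.1 _
    · revert hi
      refine Fin.addCases (fun i hi => ?_) (fun t hi => ?_) i
      · rw [Fin.append_left]; exact ha.2.1 i fun h => hi ((mA i).1 h)
      · rw [Fin.append_right]; exact ha0.2.1 _ hi
    · rw [hsumj]
      rcases h1 : e j' with _ | j
      · exact le_rfl
      · exact ha.2.2.1 j
    · rw [hsumj]
      rcases h1 : e j' with _ | j
      · rfl
      · refine ha.2.2.2 j fun h => hj' ?_
        have h2 := (mZ j).1 h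
        rwa [← h1, Equiv.symm_apply_apply] at h2
  have hA' : ∀ i ∈ A, ∃ j, j ∉ Z ∧ 0 < u j i := by
    intro i hi
    obtain ⟨j', hj', hpos⟩ := hA _ ((mA i).1 hi)
    rw [he] at hpos
    rcases h1 : e j' with _ | j
    · rw [h1] at hpos
      change 0 < yz N (Fin.castAdd 2 i) at hpos
      rw [yz_x] at hpos
      exact absurd hpos (lt_irrefl _)
    · rw [h1] at hpos
      change 0 < e0 (u j) (Fin.castAdd 2 i) at hpos
      rw [e0_x] at hpos
      refine ⟨j, fun h => hj' ?_, hpos⟩
      have h2 := (mZ j).1 h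
      rwa [← h1, Equiv.symm_apply_apply] at h2
  have hsum' : ∀ a ∈ Pool.Agent.TH216.MF.Pt u A Z, ((∑ i, a i : ℚ) : ℝ) = σ := by
    intro a ha
    have h1 := hsum _ (hext a ha)
    rw [Fin.sum_univ_add, Fin.sum_univ_two] at h1
    simp only [Fin.append_left, Fin.append_right] at h1
    rw [hyz1 a0 ha0] at h1
    push_cast at h1 ⊢
    linarith
  have hy : ∃ t : Fin 2, Fin.natAdd N t ∈ A' := by
    by_contra hcon
    push Not at hcon
    have h1 := hyz1 a0 ha0
    rw [ha0.2.1 _ (hcon 0), ha0.2.1 _ (hcon 1)] at h1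
    norm_num at h1
  rcases h A Z ⟨_, hres a0 ha0⟩ hsum' hA' with hF | ⟨i, hi, j0, h1, h2, h3⟩
  · left
    intro w hw hwZ j'
    -- the sums
    have hsumw : ∀ i : Fin (N + 2), ∑ j', w j' * (u' j' i : ℚ) =
        w (e.symm none) * (yz N i : ℚ) + ∑ j, w (e.symm (some j)) * (e0 (u j) i : ℚ) := by
      intro i
      rw [← e.symm.sum_comp, Fintype.sum_option, hn]
      congr 1
      exact Finset.sum_congr rfl fun j _ => by rw [hs]
    have hw0 : ∀ j, w (e.symm (some j)) = 0 := by
      refine hF (fun j => w (e.symm (some j))) (fun i hi => ?_) fun j hj => hwZ _ ((mZ j).1 hj)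
      have h4 := hw _ ((mA i).1 hi)
      rw [hsumw, yz_x] at h4
      simpa using h4
    have hwn : w (e.symm none) = 0 := by
      obtain ⟨t, ht⟩ := hy
      have h4 := hw _ ht
      rw [hsumw, yz_t] at h4
      simpa using h4
    rcases h4 : e j' with _ | j
    · rw [← h4, Equiv.symm_apply_apply] at hwn
      exact hwn
    · have h5 := hw0 j
      rwa [← h4, Equiv.symm_apply_apply] at h5
  · right
    refine ⟨Fin.castAdd 2 i, (mA i).1 hi, e.symm (some j0), ?_, fun a' ha' => h2 _ (hres a' ha'),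
      fun j' hj' hpos a' ha' => ?_⟩
    · rw [hs, e0_x]
      exact h1
    · rw [he] at hpos ⊢
      rcases h4 : e j' with _ | j
      · rw [h4] at hpos
        change 0 < yz N (Fin.castAdd 2 i) at hpos
        rw [yz_x] at hpos
        exact absurd hpos (lt_irrefl _)
      · rw [h4] at hpos
        change 0 < e0 (u j) (Fin.castAdd 2 i) at hpos
        rw [e0_x] at hpos
        show ∑ i, a' i * (e0 (u j) i : ℚ) ≠ 1
        rw [sum_e0]
        refine h3 j (fun h => hj' ?_) hpos _ (hres a' ha')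
        rw [← h, ← h4, Equiv.symm_apply_apply]

/-- two families with the same values -/
theorem exists_equiv {α β X : Type} (u : α → X) (g : β → X) (hu : Function.Injective u)
    (hg : Function.Injective g) (hr : ∀ x, (∃ a, u a = x) ↔ ∃ b, g b = x) :
    ∃ e : α ≃ β, ∀ a, u a = g (e a) := by
  have h1 : ∀ a, ∃ b, g b = u a := fun a => (hr _).1 ⟨a, rfl⟩
  choose f hf using h1
  refine ⟨Equiv.ofBijective f ⟨fun a a' h => hu ?_, fun b => ?_⟩, fun a => (hf a).symm⟩
  · rw [← hf a, ← hf a', h]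
  · obtain ⟨a, ha⟩ := (hr (g b)).2 ⟨b, rfl⟩
    exact ⟨a, hg (by rw [hf, ha])⟩

variable {r : ℕ} {F : Type} [Field F]

theorem ke_inj (v : Fin r → Fin N → ℕ) (h : MvPolynomial (Fin N) F) :
    Function.Injective (ke v h) := by
  intro l l' hl
  unfold ke at hl
  have h1 : ((kept v h).equivFin.symm l).1 = ((kept v h).equivFin.symm l').1 :=
    Finsupp.ext fun i => congrFun hl i
  exact (kept v h).equivFin.symm.injective (Subtype.ext h1)

theorem ke_range (v : Fin r → Fin N → ℕ) (h : MvPolynomial (Fin N) F) (x : Fin N → ℕ) :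
    (∃ l, ke v h l = x) ↔ ∃ w ∈ h.support, (∀ i, w i = x i) ∧ ¬ InC v Finset.univ x := by
  constructor
  · rintro ⟨l, rfl⟩
    obtain ⟨w, h1, h2, h3⟩ := ke_mem v h l
    exact ⟨w, h1, fun i => (h2 i).symm, h3⟩
  · rintro ⟨w, h1, h2, h3⟩
    have hx : (fun i => w i) = x := funext h2
    have hmem : w ∈ kept v h := (mem_kept v h w).2 ⟨h1, by rw [hx]; exact h3⟩
    refine ⟨(kept v h).equivFin ⟨w, hmem⟩, ?_⟩
    unfold ke
    rw [Equiv.symm_apply_apply]
    exact hx

theorem append_inj (v : Fin r → Fin N → ℕ) (hv : Function.Injective v)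
    (h : MvPolynomial (Fin N) F) : Function.Injective (Fin.append v (ke v h)) := by
  intro j j'
  refine Fin.addCases (fun j => ?_) (fun l => ?_) j <;>
    refine Fin.addCases (fun j' => ?_) (fun l' => ?_) j'
  · rw [Fin.append_left, Fin.append_left]
    intro h3
    rw [hv h3]
  · rw [Fin.append_left, Fin.append_right]
    intro h3
    obtain ⟨w, -, -, h4⟩ := (ke_range v h _).1 ⟨l', rfl⟩
    exact absurd (h3 ▸ Pool.Agent.TH216.MF.inC_self v _ j (Finset.mem_univ _)) h4
  · rw [Fin.append_left, Fin.append_right]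
    intro h3
    obtain ⟨w, -, -, h4⟩ := (ke_range v h _).1 ⟨l, rfl⟩
    exact absurd (h3 ▸ Pool.Agent.TH216.MF.inC_self v _ j' (Finset.mem_univ _)) h4
  · rw [Fin.append_right, Fin.append_right]
    intro h3
    rw [ke_inj v h h3]

theorem e0_inj : Function.Injective (e0 : (Fin N → ℕ) → Fin (N + 2) → ℕ) := by
  intro u u' h
  funext i
  have := congrFun h (Fin.castAdd 2 i)
  rwa [e0_x, e0_x] at this

theorem e0_ne_yz (u : Fin N → ℕ) : e0 u ≠ yz N := by
  intro h
  have := congrFun h (Fin.natAdd N 0)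
  rw [e0_t, yz_t] at this
  exact zero_ne_one this

theorem opt_inj {R : ℕ} {u : Fin R → Fin N → ℕ} (hu : Function.Injective u) :
    Function.Injective (opt u) := by
  intro o o' h
  rcases o with _ | j <;> rcases o' with _ | j'
  · rfl
  · exact absurd h.symm (e0_ne_yz _)
  · exact absurd h (e0_ne_yz _)
  · rw [hu (e0_inj h)]

theorem exyz_inj {v : Fin r → Fin N → ℕ} (hv : Function.Injective v) :
    Function.Injective (exyz v) := by
  intro j j'
  refine Fin.cases ?_ (fun j => ?_) j <;> refine Fin.cases ?_ (fun j' => ?_) j'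
  · intro _; rfl
  · rw [exyz_zero, exyz_succ]
    intro h
    exact absurd h.symm (e0_ne_yz _)
  · rw [exyz_zero, exyz_succ]
    intro h
    exact absurd h (e0_ne_yz _)
  · rw [exyz_succ, exyz_succ]
    intro h
    rw [hv (e0_inj h)]

/-- convex combinations -/
theorem inC_e0 (v : Fin r → Fin N → ℕ) (x : Fin N → ℕ) :
    InC (exyz v) Finset.univ (e0 x) ↔ InC v Finset.univ x := by
  constructor
  · rintro ⟨l, h1, -, h2, h3⟩
    have h0 : l 0 = 0 := by
      have h4 := h3 (Fin.natAdd N 0)
      rw [Fin.sum_univ_succ, exyz_zero, yz_t, e0_t] at h4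
      simp only [exyz_succ, e0_t] at h4
      simpa using h4
    refine ⟨fun j => l j.succ, fun j => h1 _, fun j hj => absurd (Finset.mem_univ j) hj, ?_,
      fun i => ?_⟩
    · rw [Fin.sum_univ_succ, h0, zero_add] at h2
      exact h2
    · have h4 := h3 (Fin.castAdd 2 i)
      rw [Fin.sum_univ_succ, h0, zero_mul, zero_add, e0_x] at h4
      simp only [exyz_succ, e0_x] at h4
      exact h4
  · rintro ⟨l, h1, -, h2, h3⟩
    refine ⟨Fin.cons 0 l, fun j => ?_, fun j hj => absurd (Finset.mem_univ j) hj, ?_,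
      fun i => ?_⟩
    · refine Fin.cases ?_ (fun j => ?_) j
      · rw [Fin.cons_zero]
      · rw [Fin.cons_succ]; exact h1 j
    · rw [Fin.sum_univ_succ, Fin.cons_zero, zero_add]
      simpa only [Fin.cons_succ] using h2
    · rw [Fin.sum_univ_succ, Fin.cons_zero, zero_mul, zero_add]
      simp only [Fin.cons_succ, exyz_succ]
      refine Fin.addCases (fun i => ?_) (fun t => ?_) i
      · simp only [e0_x]
        exact h3 i
      · simp only [e0_t]
        simp

theorem supp_ren (h : MvPolynomial (Fin N) F) (w : Fin (N + 2) →₀ ℕ) :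
    w ∈ (rename (Fin.castAdd 2) h).support ↔ ∃ w0 ∈ h.support, ∀ i, w i = e0 (fun i => w0 i) i := by
  classical
  rw [support_rename_of_injective (Fin.castAdd_injective _ _), Finset.mem_image]
  have key : ∀ w0 : Fin N →₀ ℕ, ∀ i, (w0.mapDomain (Fin.castAdd 2)) i =
      e0 (fun i => w0 i) i := by
    intro w0 i
    refine Fin.addCases (fun i => ?_) (fun t => ?_) i
    · rw [Finsupp.mapDomain_apply (Fin.castAdd_injective _ _), e0_x]
    · rw [e0_t, Finsupp.mapDomain_of_notMem_range]
      rintro ⟨i', hi'⟩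
      have := congrArg Fin.val hi'
      have h2 := i'.2
      simp only [Fin.val_castAdd, Fin.val_natAdd] at this
      omega
  constructor
  · rintro ⟨w0, h1, rfl⟩
    exact ⟨w0, h1, key w0⟩
  · rintro ⟨w0, h1, h2⟩
    refine ⟨w0, h1, Finsupp.ext fun i => ?_⟩
    rw [key, h2]

/-- **The condition for `G + y z`**, with the remaining exponents -/
theorem hypS_yz (v : Fin r → Fin N → ℕ) (hv : Function.Injective v)
    (h : MvPolynomial (Fin N) F) (σ : ℝ) (hS : HypS (Fin.append v (ke v h)) σ) :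
    HypS (Fin.append (exyz v) (ke (exyz v) (rename (Fin.castAdd 2) h))) (σ + 1) := by
  obtain ⟨e, he⟩ := exists_equiv
    (Fin.append (exyz v) (ke (exyz v) (rename (Fin.castAdd 2) h)))
    (opt (Fin.append v (ke v h)))
    (append_inj _ (exyz_inj hv) _) (opt_inj (append_inj v hv h)) (by
      intro x
      constructor
      · rintro ⟨j, rfl⟩
        refine Fin.addCases (fun j => ?_) (fun l => ?_) j
        · rw [Fin.append_left]
          refine Fin.cases ⟨none, ?_⟩ (fun j => ⟨some (Fin.castAdd _ j), ?_⟩) j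
          · rw [exyz_zero]; rfl
          · rw [exyz_succ]
            show e0 (Fin.append v (ke v h) (Fin.castAdd _ j)) = _
            rw [Fin.append_left]
        · rw [Fin.append_right]
          obtain ⟨w, h1, h2, h3⟩ := (ke_range (exyz v) (rename (Fin.castAdd 2) h) _).1 ⟨l, rfl⟩
          obtain ⟨w0, h4, h5⟩ := (supp_ren h w).1 h1
          have h6 : ke (exyz v) (rename (Fin.castAdd 2) h) l = e0 (fun i => w0 i) :=
            funext fun i => (h2 i).symm.trans (h5 i)
          rw [h6] at h3 ⊢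
          obtain ⟨l', hl'⟩ := (ke_range v h (fun i => w0 i)).2
            ⟨w0, h4, fun _ => rfl, fun h7 => h3 ((inC_e0 v _).2 h7)⟩
          refine ⟨some (Fin.natAdd _ l'), ?_⟩
          show e0 (Fin.append v (ke v h) (Fin.natAdd _ l')) = _
          rw [Fin.append_right, hl']
      · rintro ⟨o, rfl⟩
        rcases o with _ | j
        · refine ⟨Fin.castAdd _ 0, ?_⟩
          rw [Fin.append_left, exyz_zero]
          rfl
        · show ∃ a, _ = e0 (Fin.append v (ke v h) j)
          refine Fin.addCases (fun j => ?_) (fun l => ?_) j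
          · refine ⟨Fin.castAdd _ j.succ, ?_⟩
            rw [Fin.append_left, Fin.append_left, exyz_succ]
          · rw [Fin.append_right]
            obtain ⟨w, h1, h2, h3⟩ := (ke_range v h _).1 ⟨l, rfl⟩
            have h6 : ke v h l = fun i => w i := funext fun i => (h2 i).symm
            rw [h6] at h3 ⊢
            obtain ⟨w', hw'⟩ : ∃ w' : Fin (N + 2) →₀ ℕ, ∀ i, w' i = e0 (fun i => w i) i :=
              ⟨Finsupp.equivFunOnFinite.symm (e0 fun i => w i), fun _ => rfl⟩
            obtain ⟨l', hl'⟩ := (ke_range (exyz v) (rename (Fin.castAdd 2) h)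
              (e0 fun i => w i)).2 ⟨w', (supp_ren h w').2 ⟨w, h1, hw'⟩, hw',
                fun h7 => h3 ((inC_e0 v _).1 h7)⟩
            exact ⟨Fin.natAdd _ l', by rw [Fin.append_right, hl']⟩)
  exact hypS_ext _ _ e he σ hS

end Pool.Agent.K4H43.GC
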