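import Pool.Agent.K4H43.GC.Desc

/-!
# Stably generic polynomials
-/

set_option autoImplicit false

namespace Pool.Agent.K4H43.GC

open MvPolynomial Pool.Agent.H628R4.TP Pool.Agent.W425.MM Pool.Agent.W425.GN
open Pool.Agent.W425.ND (spa)
open Pool.Agent.W426.SM (gord IsRay face)
open Pool.Agent.W425.SV (NP)
open Pool.Agent.W425.BF (shf shf_eval shf_ne hz hz_support cof spa_add)
open Pool.Agent.TH216.MF (HypS kept ke LocS hypS_of_locS)
open Pool.Agent.TH216.MC (locS_hz')
open Pool.Agent.W428.MOT (Pt Constr ratRing Lu MK)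
open Pool.Agent.W375.MG (zetaG Good)
open Pool.Agent.Y229.MS

variable {r N : ℕ}

/-- the roots from simplices which are not B1, at all levels -/
theorem rp_nonB [NeZero r] {F : Type} [Field F] (v : Fin r → Fin N → ℕ)
    (hv : Function.Injective v) (hv0 : ∀ j, v j ≠ 0) (h : MvPolynomial (Fin N) F)
    (hh : ∀ w ∈ h.support, Pool.Agent.W425.SV.NP v w)
    (u : Fin N → ℕ) (hgu : 0 < gord v u) (hu : NonB v False u) :
    RP v h (-(((∑ i, u i : ℕ) : ℚ) / gord v u)) := by
  intro F' _ _ a h' ha hs b hb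
  by_cases hb0 : b = 0
  · rw [hb0]
    exact dvd_zero _
  have hb' := (Pool.Agent.W591.GC.J_bot _ b).2 ((bfun_iff _ _).2 hb)
  have hbot : ∀ g ∈ (⊥ : Submonoid (MvPolynomial (Fin N) ℂ)),
      MvPolynomial.constantCoeff g = 1 ∧ (¬ False → g = 1) := fun g hg => by
    rw [Submonoid.mem_bot] at hg
    exact ⟨by rw [hg, map_one], fun _ => hg⟩
  have hh' : ∀ w ∈ h'.support, Pool.Agent.W425.SV.NP v w := fun w hw => hh w (hs w hw)
  obtain ⟨θ, hθ, hR⟩ := a5s Pool.Agent.W688.MM.a1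
    (a4 Pool.Agent.W318.MM.a2 Pool.Agent.W554.MM.taskA3) v False u hgu hu
  obtain ⟨p, q, hbp, hp⟩ := Pool.Agent.W422.GC.rel_of_unit False ⊥ hbot v a hv hv0 ha h' hh' θ hθ
    b hb0 hb'
  have hp1 := hR p hp
  have hα : ((-(((∑ i, u i : ℕ) : ℚ) / gord v u) : ℚ) : ℂ) =
      -(((∑ i, u i : ℕ) : ℂ) / gord v u) := by
    push_cast
    ring
  rw [← hα] at hp1
  obtain ⟨p', hp'⟩ := Polynomial.dvd_iff_isRoot.2 hp1
  unfold mult
  by_cases h3 : (-(((∑ i, u i : ℕ) : ℚ) / gord v u)) = -1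
  · rw [if_pos h3]
    refine ⟨p' * q, ?_⟩
    have e : (Polynomial.X - Polynomial.C (((-(((∑ i, u i : ℕ) : ℚ) / gord v u)) : ℚ) : ℂ)) =
        (Polynomial.X + 1) := by
      rw [h3]
      push_cast
      rw [map_neg, map_one, sub_neg_eq_add]
    rw [hbp, hp', e]
    ring
  · rw [if_neg h3, zero_add, pow_one, hbp, hp']
    exact ⟨(Polynomial.X + 1) * p' * q, by ring⟩

/-- the condition: every level comes from a simplex which is not B1, or it is simplicial or B1
near every vertex -/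
def HypR {R : Type} [CommRing R] (v : Fin r → Fin N → ℕ) (h : MvPolynomial (Fin N) R) : Prop :=
  ∀ a : Fin N → ℕ, IsRay v a → 0 < gord v a →
    (∃ a' : Fin N → ℕ, 0 < gord v a' ∧ NonB v False a' ∧
      ((∑ i, a i : ℕ) : ℚ) / gord v a = ((∑ i, a' i : ℕ) : ℚ) / gord v a') ∨
    LocS v h (((∑ i, a i : ℕ) : ℚ) / gord v a)

theorem alt (hr : 0 < r) {R : Type} [CommRing R] {v : Fin r → Fin N → ℕ} (hv0 : ∀ j, v j ≠ 0)
    {h : MvPolynomial (Fin N) R} (hL : HypR v h) (σ : ℚ) :
    (∃ a' : Fin N → ℕ, 0 < gord v a' ∧ NonB v False a' ∧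
      σ = ((∑ i, a' i : ℕ) : ℚ) / gord v a') ∨ LocS v h σ := by
  by_cases h1 : ∃ a : Fin N → ℕ, IsRay v a ∧ 0 < gord v a ∧
      ((∑ i, a i : ℕ) : ℚ) / gord v a = σ
  · obtain ⟨a, h2, h3, rfl⟩ := h1
    exact hL a h2 h3
  · right
    intro j1
    obtain ⟨i, -⟩ := Function.ne_iff.1 (hv0 j1)
    exact ⟨i, fun a h2 h3 _ h4 => absurd ⟨a, h2, h3, h4⟩ h1⟩

/-- a good value of the new coefficient -/
theorem exists_t {F : Type} [Field F] [Algebra F ℂ] (g : MvPolynomial (Fin (r + 1)) F)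
    (c : Fin r → ℂ) (hc : aeval c (finSuccEquiv F r g).leadingCoeff ≠ 0) :
    ∃ t : ℕ, t ≠ 0 ∧ aeval (Fin.cons (t : ℂ) c : Fin (r + 1) → ℂ) g ≠ 0 := by
  classical
  set q : Polynomial ℂ := Polynomial.map (aeval c : MvPolynomial (Fin r) F →ₐ[F] ℂ).toRingHom
    (finSuccEquiv F r g) with hq
  have hq0 : q ≠ 0 := by
    intro h
    have h1 := congrArg (fun p : Polynomial ℂ => p.coeff (finSuccEquiv F r g).natDegree) h
    simp only [hq, Polynomial.coeff_map, Polynomial.coeff_zero] at h1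
    exact hc h1
  have hval : ∀ t : ℂ, aeval (Fin.cons t c : Fin (r + 1) → ℂ) g = q.eval t := by
    intro t
    have h2 : (aeval (Fin.cons t c : Fin (r + 1) → ℂ) :
        MvPolynomial (Fin (r + 1)) F →ₐ[F] ℂ).toRingHom =
        ((Polynomial.eval₂RingHom (aeval c : MvPolynomial (Fin r) F →ₐ[F] ℂ).toRingHom t).comp
          (finSuccEquiv F r).toAlgHom.toRingHom) := by
      refine MvPolynomial.ringHom_ext (fun a => ?_) fun j => ?_
      · show aeval (Fin.cons t c : Fin (r + 1) → ℂ) (C a) =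
          Polynomial.eval₂ _ t (finSuccEquiv F r (C a))
        rw [← algebraMap_eq, AlgEquiv.commutes, AlgHom.commutes]
        show _ = Polynomial.eval₂ _ t (Polynomial.C (C a))
        rw [Polynomial.eval₂_C]
        show _ = aeval c (C a)
        rw [← algebraMap_eq, AlgHom.commutes]
      refine Fin.cases ?_ (fun j => ?_) j
      · show aeval (Fin.cons t c : Fin (r + 1) → ℂ) (X 0) =
          Polynomial.eval₂ _ t (finSuccEquiv F r (X 0))
        rw [aeval_X, Fin.cons_zero, finSuccEquiv_X_zero, Polynomial.eval₂_X]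
      · show aeval (Fin.cons t c : Fin (r + 1) → ℂ) (X j.succ) =
          Polynomial.eval₂ _ t (finSuccEquiv F r (X j.succ))
        rw [aeval_X, Fin.cons_succ, finSuccEquiv_X_succ, Polynomial.eval₂_C]
        show c j = aeval c (X j)
        rw [aeval_X]
    have h3 := congrArg (fun φ : MvPolynomial (Fin (r + 1)) F →+* ℂ => φ g) h2
    rw [hq, Polynomial.eval_map]
    exact h3
  by_contra hcon
  push Not at hcon
  apply hq0
  refine Polynomial.eq_zero_of_infinite_isRoot q ?_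
  refine Set.Infinite.mono ?_ (Set.infinite_range_of_injective
    (f := fun n : ℕ => ((n + 1 : ℕ) : ℂ)) (fun a b h => by
      have h1 : a + 1 = b + 1 := Nat.cast_injective h
      omega))
  rintro _ ⟨n, rfl⟩
  show q.eval _ = 0
  rw [← hval]
  exact hcon (n + 1) (Nat.succ_ne_zero n)

/-- the Newton polyhedron of `G + y z` -/
theorem np_yz (v : Fin r → Fin N → ℕ) (w : Fin N →₀ ℕ) (w' : Fin (N + 2) →₀ ℕ)
    (hw : ∀ i, w' i = e0 (fun i => w i) i) (h : NP v w) : NP (exyz v) w' := by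
  obtain ⟨l, h1, h2, h3⟩ := h
  refine ⟨Fin.cons 0 l, fun j => ?_, ?_, fun i => ?_⟩
  · refine Fin.cases ?_ (fun j => ?_) j
    · rw [Fin.cons_zero]
    · rw [Fin.cons_succ]; exact h1 j
  · rw [Fin.sum_univ_succ, Fin.cons_zero, zero_add]
    simpa only [Fin.cons_succ] using h2
  · rw [Fin.sum_univ_succ, Fin.cons_zero, zero_mul, zero_add]
    simp only [Fin.cons_succ, exyz_succ]
    rw [hw]
    refine Fin.addCases (fun i => ?_) (fun t => ?_) i
    · simp only [e0_x]
      exact h3 i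
    · simp only [e0_t]
      simp

/-- the conclusion -/
def Con {F : Type} [Field F] [Algebra F ℂ] (n κ : ℕ) (v : Fin r → Fin (n + (κ + κ)) → ℕ)
    (h : MvPolynomial (Fin (n + (κ + κ))) F) (g : MvPolynomial (Fin r) F) : Prop :=
  ∀ (k : Type) [Field k] [Algebra F k] [Algebra k ℂ] [IsScalarTower F k ℂ] (c : Fin r → k),
    aeval (fun j => algebraMap k ℂ (c j)) g ≠ 0 →
    ∀ f : MvPolynomial (Fin n) k, f.totalDegree ≠ 0 →
    ∀ φ : MvPolynomial (Fin (n + (κ + κ))) k ≃ₐ[k] MvPolynomial (Fin (n + (κ + κ))) k,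
    φ (stabK f κ) = spa v c + map (algebraMap F k) h →
    ∃ S : Finset (ℤ × ℤ),
      (∀ p ∈ S, 0 < p.2 ∧ (p = (-1, 1) ∨
          (∃ a : Fin (n + (κ + κ)) → ℕ, 0 < gord v a ∧
            p = (-((∑ i, a i : ℕ) : ℤ) + κ * (gord v a : ℤ), (gord v a : ℤ))) ∨
          (∃ a : Fin (n + (κ + κ) + 2) → ℕ, 0 < gord (exyz v) a ∧
            p = (-((∑ i, a i : ℕ) : ℤ) + ((κ + 1 : ℕ) : ℤ) * (gord (exyz v) a : ℤ),
              (gord (exyz v) a : ℤ)))) ∧
        ∀ b : Polynomial ℂ, IsBFunction (map (algebraMap k ℂ) f) b →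
          b.eval ((p.1 : ℂ) / p.2) = 0) ∧
      ∀ (K : Type) [Field K] [Algebra k K] (W : Set (Pt K (Fin n)))
        (E : Set (AlgebraicClosure K)), Constr W → Good E →
        zetaG (map (algebraMap k K) f) W E ∈ ratRing K S

theorem stab0 {F : Type} [Field F] [Algebra F ℂ] (hr : 0 < r) (n κ : ℕ)
    (v : Fin r → Fin (n + (κ + κ)) → ℕ) (hv : Function.Injective v) (hv0 : ∀ j, v j ≠ 0)
    (h : MvPolynomial (Fin (n + (κ + κ))) F) (hh : ∀ w ∈ h.support, NP v w)
    (hvh : ∀ w ∈ h.support, ∀ j, ¬ ∀ x, w x = v j x) (hL : HypR v h) :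
    ∃ g : MvPolynomial (Fin r) F, g ≠ 0 ∧ Con n κ v h g := by
  classical
  have hne : NeZero r := ⟨by omega⟩
  obtain ⟨S1, g1, hg1, hS1, hz1⟩ := fst_gen hr v hv hv0 h hh hvh
  have hv' : Function.Injective (exyz v) := exyz_inj hv
  have hv0' : ∀ j, exyz v j ≠ 0 := by
    intro j
    refine Fin.cases ?_ (fun j => ?_) j
    · rw [exyz_zero]
      intro h1
      have := congrFun h1 (Fin.natAdd _ 0)
      rw [yz_t] at this
      exact one_ne_zero this
    · rw [exyz_succ]
      intro h1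
      apply hv0 j
      funext i
      have := congrFun h1 (Fin.castAdd 2 i)
      rwa [e0_x] at this
  have hh' : ∀ w ∈ (rename (Fin.castAdd 2) h).support, NP (exyz v) w := by
    intro w hw
    obtain ⟨w0, h1, h2⟩ := (supp_ren h w).1 hw
    exact np_yz v w0 w h2 (hh w0 h1)
  have hvh' : ∀ w ∈ (rename (Fin.castAdd 2) h).support, ∀ j, ¬ ∀ x, w x = exyz v j x := by
    intro w hw j
    obtain ⟨w0, h1, h2⟩ := (supp_ren h w).1 hw
    refine Fin.cases ?_ (fun j => ?_) j
    · rw [exyz_zero]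
      intro h3
      have h4 := h3 (Fin.natAdd _ 0)
      rw [h2, e0_t, yz_t] at h4
      exact zero_ne_one h4
    · rw [exyz_succ]
      intro h3
      refine hvh w0 h1 j fun x => ?_
      have h4 := h3 (Fin.castAdd 2 x)
      rwa [h2, e0_x, e0_x] at h4
  obtain ⟨S2, g2, hg2, hS2, hz2⟩ := fst_gen (Nat.succ_pos r) (exyz v) hv' hv0'
    (rename (Fin.castAdd 2) h) hh' hvh'
  have hlc : (finSuccEquiv F r g2).leadingCoeff ≠ 0 := by
    rw [Polynomial.leadingCoeff_ne_zero]
    exact (map_ne_zero_iff _ (finSuccEquiv F r).injective).2 hg2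
  refine ⟨g1 * (finSuccEquiv F r g2).leadingCoeff, mul_ne_zero hg1 hlc, ?_⟩
  intro k _ _ _ _ c hc f hf φ hφ
  rw [map_mul] at hc
  have hkc : CharZero k := RingHom.charZero (algebraMap k ℂ)
  obtain ⟨t, ht0, ht⟩ := exists_t g2 _ (right_ne_zero_of_mul hc)
  have htk : (t : k) ≠ 0 := Nat.cast_ne_zero.2 ht0
  obtain ⟨hb1, hr1⟩ := hz1 k c (left_ne_zero_of_mul hc)
  have hcons : (fun j => algebraMap k ℂ ((Fin.cons (t : k) c : Fin (r + 1) → k) j)) =
      (Fin.cons (t : ℂ) (fun j => algebraMap k ℂ (c j)) : Fin (r + 1) → ℂ) := by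
    funext j
    refine Fin.cases ?_ (fun j => ?_) j
    · rw [Fin.cons_zero, Fin.cons_zero, map_natCast]
    · rw [Fin.cons_succ, Fin.cons_succ]
  obtain ⟨hb2, hr2⟩ := hz2 k (Fin.cons (t : k) c) (by rw [hcons]; exact ht)
  have hmapG : ∀ (K : Type) [Field K] [Algebra k K], map (algebraMap k K)
      (spa v c + map (algebraMap F k) h) = spa v (fun j => algebraMap k K (c j)) +
        map ((algebraMap k K).comp (algebraMap F k)) h := by
    intro K _ _
    rw [map_add, Pool.Agent.Y229.MS.map_spa, MvPolynomial.map_map]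
  have hmapG' : ∀ (K : Type) [Field K] [Algebra k K], map (algebraMap k K)
      (spa (exyz v) (Fin.cons (t : k) c) + map (algebraMap F k) (rename (Fin.castAdd 2) h)) =
        spa (exyz v) (fun j => algebraMap k K ((Fin.cons (t : k) c : Fin (r + 1) → k) j)) +
        map ((algebraMap k K).comp (algebraMap F k)) (rename (Fin.castAdd 2) h) := by
    intro K _ _
    rw [map_add, Pool.Agent.Y229.MS.map_spa, MvPolynomial.map_map]
  have hFC : (algebraMap k ℂ).comp (algebraMap F k) = algebraMap F ℂ :=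
    (IsScalarTower.algebraMap_eq F k ℂ).symm
  obtain ⟨S, hS, hz⟩ := descG f hf (spa v c + map (algebraMap F k) h) φ hφ
    (spa (exyz v) (Fin.cons (t : k) c) + map (algebraMap F k) (rename (Fin.castAdd 2) h))
    (scaE (t : k) htk) (by
      rw [scaE_addyz, spa_exyz, map_add, map_rename]
      ring) S1 S2
    (fun p hp => by
      obtain ⟨a, -, h2, -, rfl⟩ := hS1 p hp
      exact Int.natCast_pos.2 h2)
    (fun p hp => by
      obtain ⟨a, -, h2, -, rfl⟩ := hS2 p hp
      exact Int.natCast_pos.2 h2)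
    (fun hBG b hb p hp => by
      obtain ⟨a, ha, hg, hHS, rfl⟩ := hS1 p hp
      have h1 := hBG b hb
      rw [hmapG, hFC] at h1
      have h2 := hb1 _ h1
      have h3 : RP v h (-(((∑ i, a i : ℕ) : ℚ) / gord v a)) := by
        rcases alt hr hv0 hL (((∑ i, a i : ℕ) : ℚ) / gord v a) with ⟨a', h4, h5, h6⟩ | h4
        · rw [h6]
          exact rp_nonB v hv hv0 h hh a' h4 h5
        · exact hHS (hypS_of_locS hr v h hh _ h4)
      have h4 := h2 _ h3
      rw [Polynomial.eval_comp, Polynomial.eval_add, Polynomial.eval_X, Polynomial.eval_C] at h4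
      rw [← h4]
      congr 1
      push_cast
      ring)
    (fun hBG hBG' b hb p hp => by
      obtain ⟨a, ha, hg, hHS, rfl⟩ := hS2 p hp
      rcases alt hr hv0 hL (((∑ i, a i : ℕ) : ℚ) / gord (exyz v) a - 1) with
        ⟨a', h4, h5, h6⟩ | h4
      · have h1 := hBG b hb
        rw [hmapG, hFC] at h1
        have h2 := hb1 _ h1 _ (rp_nonB v hv hv0 h hh a' h4 h5)
        rw [← h6, Polynomial.eval_comp, Polynomial.eval_add, Polynomial.eval_X,
          Polynomial.eval_C] at h2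
        rw [← h2]
        congr 1
        push_cast
        ring
      · have h1 := hBG' b hb
        rw [hmapG', hFC] at h1
        have h5 := hypS_yz v hv h _ (hypS_of_locS hr v h hh _ h4)
        have h6 : RP (exyz v) (rename (Fin.castAdd 2) h)
            (-(((∑ i, a i : ℕ) : ℚ) / gord (exyz v) a)) := by
          apply hHS
          convert h5 using 1
          push_cast
          ring
        have h2 := hb2 _ h1 _ h6
        rw [Polynomial.eval_comp, Polynomial.eval_comp] at h2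
        simp only [Polynomial.eval_add, Polynomial.eval_X, Polynomial.eval_C] at h2
        rw [← h2]
        congr 1
        push_cast
        ring)
    (fun K _ _ W E hW hE => by
      rw [hmapG]
      exact hr1 K W E hW hE)
    (fun K _ _ W E hW hE => by
      rw [hmapG']
      exact hr2 K W E hW hE)
  refine ⟨S, fun p hp => ?_, hz⟩
  obtain ⟨h1, h2, h3⟩ := hS p hp
  refine ⟨h1, ?_, h3⟩
  rcases h2 with h2 | ⟨q, hq, h2⟩ | ⟨q, hq, h2⟩
  · exact Or.inl h2
  · obtain ⟨a, ha, hg, -, rfl⟩ := hS1 q hq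
    exact Or.inr (Or.inl ⟨a, hg, h2⟩)
  · obtain ⟨a, ha, hg, -, rfl⟩ := hS2 q hq
    exact Or.inr (Or.inr ⟨a, hg, h2⟩)

theorem hypR_hz {F : Type} [Field F] (v : Fin r → Fin N → ℕ)
    (hv : Function.Injective v) (h : MvPolynomial (Fin N) F) (hB : HypR v h) :
    HypR v (hz v h) := by
  intro a ha hg
  rcases hB a ha hg with h1 | h1
  · exact Or.inl h1
  · exact Or.inr (locS_hz' v hv h _ h1)

/-- **Stably generic polynomials.** -/
theorem stab_gen {F : Type} [Field F] [Algebra F ℂ] (hr : 0 < r) (n κ : ℕ)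
    (v : Fin r → Fin (n + (κ + κ)) → ℕ) (hv : Function.Injective v) (hv0 : ∀ j, v j ≠ 0)
    (h : MvPolynomial (Fin (n + (κ + κ))) F) (hh : ∀ w ∈ h.support, NP v w) (hL : HypR v h) :
    ∃ g : MvPolynomial (Fin r) F, g ≠ 0 ∧ Con n κ v h g := by
  obtain ⟨g, hg, hC⟩ := stab0 hr n κ v hv hv0 (hz v h)
    (fun w hw => hh w ((hz_support v hv h).1 w hw)) (hz_support v hv h).2 (hypR_hz v hv h hL)
  refine ⟨shf (cof v h) g, shf_ne _ _ hg, ?_⟩
  intro k _ _ _ _ c hc f hf φ hφ
  refine hC k (fun j => c j + algebraMap F k (cof v h j)) ?_ f hf φ ?_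
  · rw [shf_eval] at hc
    have e : (fun j => algebraMap k ℂ (c j + algebraMap F k (cof v h j))) =
        fun j => algebraMap k ℂ (c j) + algebraMap F ℂ (cof v h j) := by
      funext j
      rw [map_add, ← IsScalarTower.algebraMap_apply]
    rw [e]
    exact hc
  · rw [hφ, spa_add]
    unfold hz
    rw [map_sub, Pool.Agent.Y229.MS.map_spa]
    ring

end Pool.Agent.K4H43.GC
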